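import Pool.Agent.MP_dd7250_nt.NR.Sa

set_option autoImplicit false

namespace Pool.Agent.MP_dd7250_nt.NR

open Finset Filter Pool.Agent.MP_dd7250_nt.LS
open scoped ComplexOrder

theorem zero_AN {f : ℂ → ℂ} {R A : ℝ} {k i : ℕ} (hf : Differentiable ℂ f) (hR : 0 < R)
    (h : ∀ z : ℂ, ‖z‖ ≤ R → ‖f z‖ ≤ A * ‖z‖ ^ k) (hi : i < k) : iteratedDeriv i f 0 = 0 := by
  obtain ⟨m, rfl⟩ := Nat.exists_eq_add_of_lt hi
  have ht : Tendsto (fun σ : ℝ => (i.factorial : ℝ) * (A * σ ^ (m + 1))) (nhdsWithin 0 (Set.Ioi 0))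
      (nhds ((i.factorial : ℝ) * (A * 0 ^ (m + 1)))) :=
    (Continuous.tendsto (by fun_prop) _).mono_left nhdsWithin_le_nhds
  rw [zero_pow (by omega), mul_zero, mul_zero] at ht
  refine norm_le_zero_iff.1 (ge_of_tendsto ht ?_)
  filter_upwards [Ioo_mem_nhdsGT hR] with σ hσ
  have h1 := Complex.norm_iteratedDeriv_le_of_forall_mem_sphere_norm_le (c := 0)
    (C := A * σ ^ (i + m + 1)) i hσ.1 hf.diffContOnCl fun z hz => by
      have e : ‖z‖ = σ := mem_sphere_zero_iff_norm.1 hz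
      rw [← e]
      exact h z (e.trans_le hσ.2.le)
  refine h1.trans (le_of_eq ?_)
  have := hσ.1.ne'
  rw [add_assoc, pow_add]
  field_simp

theorem norm_AN {a b : ℂ} (ha : 0 ≤ a) (hb : 0 ≤ b) : ‖a‖ ≤ ‖a + b‖ := by
  rw [← Complex.re_eq_norm.2 ha, ← Complex.re_eq_norm.2 (add_nonneg ha hb), Complex.add_re]
  exact le_add_of_nonneg_right (Complex.nonneg_iff.1 hb).1

theorem an_pf : SAN := by
  intro Ψ₀ Ψ₁ P ρ R ε B A k h0 h1 hρ hρR hP hε hB hA
  have hR : 0 < R := hρ.trans_le hρR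
  have ε0 : 0 ≤ ε := (norm_nonneg _).trans (hε ρ (by simp [hρ.le]))
  have B0 : 0 ≤ B := (norm_nonneg _).trans (hB R (by simp [hR.le]))
  have hPa : ∀ i : ℕ, ContDiffAt ℂ i P 0 := fun i =>
    (hP.analyticAt (Metric.ball_mem_nhds 0 (by linarith))).contDiffAt
  have hc : ∀ i : ℕ, ‖iteratedDeriv i Ψ₀ 0‖ ≤
      i.factorial * ε / ρ ^ i + i.factorial * B / R ^ i := fun i => by
    have a0 : ContDiffAt ℂ i Ψ₀ 0 := (h0.1.analyticAt 0).contDiffAt
    have a1 : ContDiffAt ℂ i Ψ₁ 0 := (h1.1.analyticAt 0).contDiffAt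
    have b1 := Complex.norm_iteratedDeriv_le_of_forall_mem_sphere_norm_le (c := 0)
      (f := fun z => Ψ₀ z + Ψ₁ z - P z) i hρ
      (((h0.1.fun_add h1.1).differentiableOn.fun_sub hP).diffContOnCl_ball
        (Metric.closedBall_subset_ball (by linarith)))
      fun z hz => hε z (mem_sphere_zero_iff_norm.1 hz)
    have b2 := Complex.norm_iteratedDeriv_le_of_forall_mem_sphere_norm_le (c := 0) i hR
      (hP.diffContOnCl_ball (Metric.closedBall_subset_ball (by linarith)))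
      fun z hz => hB z (mem_sphere_zero_iff_norm.1 hz)
    rw [iteratedDeriv_fun_sub (a0.add a1) (hPa i), iteratedDeriv_fun_add a0 a1] at b1
    refine (norm_AN (h0.2 i) (h1.2 i)).trans ?_
    exact (norm_le_norm_sub_add _ _).trans (add_le_add b1 b2)
  have s1 := (hasSum_nat_add_iff' k).2
    (Complex.hasSum_taylorSeries_of_entire h0.1 0 ((ρ / 2 : ℝ) : ℂ))
  rw [sum_eq_zero fun i hi => by rw [zero_AN h0.1 hR hA (mem_range.1 hi), smul_zero, smul_zero],
    sub_zero, sub_zero] at s1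
  set u := ρ / 2 / R with hu
  have u0 : 0 ≤ u := by positivity
  have u1 : u ≤ 1 / 2 := by
    rw [hu, div_le_iff₀ hR]
    linarith
  have s2 := (hasSum_geometric_two.mul_left ε).add (hasSum_geometric_two.mul_left (B * u ^ k))
  refine (s1.norm_le_of_bounded s2 fun n => ?_).trans (by linarith)
  have f0 : (0 : ℝ) < (n + k).factorial := Nat.cast_pos.2 (Nat.factorial_pos _)
  rw [norm_smul, norm_smul, norm_inv, Complex.norm_natCast, norm_pow, Complex.norm_real,
    Real.norm_of_nonneg (by positivity)]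
  refine (mul_le_mul_of_nonneg_left (mul_le_mul_of_nonneg_left (hc (n + k)) (by positivity))
    (by positivity)).trans ?_
  have e : ((n + k).factorial : ℝ)⁻¹ * ((ρ / 2) ^ (n + k) *
      ((n + k).factorial * ε / ρ ^ (n + k) + (n + k).factorial * B / R ^ (n + k))) =
      ε * (1 / 2) ^ (n + k) + B * u ^ (n + k) := by
    simp only [hu, div_pow]
    field_simp
    ring
  rw [e]
  refine add_le_add (mul_le_mul_of_nonneg_left
    (pow_le_pow_of_le_one (by norm_num) (by norm_num) (Nat.le_add_right n k)) ε0) ?_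
  rw [add_comm, pow_add, ← mul_assoc]
  exact mul_le_mul_of_nonneg_left (pow_le_pow_left₀ u0 u1 n) (by positivity)

end Pool.Agent.MP_dd7250_nt.NR
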