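import Pool.Agent.MP_dd7250_nt.NR.Sb

set_option autoImplicit false

namespace Pool.Agent.MP_dd7250_nt.NR

open Polynomial Finset Pool.Agent.MP_d232b3_nt Pool.Agent.MP_dd7250_nt Pool.Agent.MP_dd7250_nt.LS
  Pool.Agent.MP_dd7250_nt.SH
open scoped Classical

theorem pp_eq_D0 {F : Type} [Field F] [Fintype F] (D : F[X]) {j : ℕ} (hj : 1 ≤ j) :
    pp (jac D) j = -((sq F)⁻¹ ^ j * ∑ x ∈ VV F j, jac D (cc x j)) := by
  rw [pp, ← SS_eq (jac_cm D) hj, SS]

theorem tr_pf (F : Type) [Field F] [Fintype F] : STr F := by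
  intro D ν j h1 h2
  have hs : ‖∑ x ∈ VV F j, jac D (cc x j)‖ ≤ qp F j := by
    refine (norm_sum_le _ _).trans ((sum_le_card_nsmul _ _ 1 fun x _ => norm_jac_le _ _).trans_eq ?_)
    rw [card_VV (by omega), qp_nat, nsmul_eq_mul, mul_one, Nat.cast_pow]
  have h3 : (j : ℝ) ≤ 2 * ν := by exact_mod_cast h2
  rw [pp_eq_D0 D h1, norm_neg, norm_mul, norm_pow, norm_inv, norm_sq, ← qp_neg, qp_pow,
    Nat.cast_pow, ← qp_nat]
  refine (mul_le_mul_of_nonneg_left hs (qp_pos _).le).trans ?_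
  rw [← qp_add]
  exact qp_mono (by linarith)

theorem val_D0 {F : Type} [Field F] [Fintype F] (hF : ringChar F ≠ 2) {n k : ℕ} (hn : n ≠ 0)
    (hk : Q F ^ n = 4 * k + 1) {x : KK F} (hx : x ^ Q F ^ (2 * n) = x) :
    jac (X ^ Q F ^ n - X : F[X]) (cc x (2 * n)) = if x ^ Q F ^ n = x then 0 else -1 := by
  obtain ⟨c1, c2, c3⟩ := jac_cc hF (X ^ Q F ^ n - X : F[X]) hx (by omega)
  have h1 : 1 < Q F ^ n := Nat.one_lt_pow hn Fintype.one_lt_card
  have ee : (Q F ^ (2 * n) - 1) / 2 = 4 * k * (2 * k + 1) := by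
    have : Q F ^ (2 * n) = 2 * (4 * k * (2 * k + 1)) + 1 := by
      rw [mul_comm 2 n, pow_mul, hk]; ring
    omega
  have hw : aeval x (X ^ Q F ^ n - X : F[X]) = x ^ Q F ^ n - x := by simp
  have hne : (-1 : KK F) ≠ 1 := by
    have h2 : (-1 : F) ≠ 1 := Ring.neg_one_ne_one_of_char_ne_two hF
    intro h
    exact h2 ((algebraMap F (KK F)).injective (by simpa using h))
  rw [ee] at c1 c2
  split_ifs with h
  · have h0 : aeval x (X ^ Q F ^ n - X : F[X]) ^ (4 * k * (2 * k + 1)) = 0 := by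
      rw [hw, h, sub_self, zero_pow (Nat.mul_ne_zero (by omega) (by omega))]
    rw [h0] at c1 c2
    rcases jac_tri (X ^ Q F ^ n - X : F[X]) (cc x (2 * n)) with e | e | e
    · exact e
    · exact absurd (c1 e) zero_ne_one
    · exact absurd (c2 e).symm (neg_ne_zero.2 one_ne_zero)
  · have h4 := aeval_pow x n (X ^ Q F ^ n - X : F[X])
    have h5 : aeval (x ^ Q F ^ n) (X ^ Q F ^ n - X : F[X]) = -(x ^ Q F ^ n - x) := by
      rw [map_sub, map_pow, aeval_X, ← pow_mul, ← pow_add, ← two_mul, hx, neg_sub]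
    have h6 : x ^ Q F ^ n - x ≠ 0 := sub_ne_zero.2 h
    rw [hw] at c1 c3
    rw [h5, hw] at h4
    generalize x ^ Q F ^ n - x = w at c1 c3 h4 h6
    have h7 : w ^ (4 * k) = -1 := by
      refine mul_right_cancel₀ h6 ?_
      rw [← pow_succ, ← hk, ← h4, neg_one_mul]
    rcases jac_tri (X ^ Q F ^ n - X : F[X]) (cc x (2 * n)) with e | e | e
    · exact absurd (c3 e) h6
    · have h8 := c1 e
      rw [pow_mul, h7, Odd.neg_one_pow ⟨k, rfl⟩] at h8
      exact absurd h8 hne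
    · exact e

theorem d0_pf (F : Type) [Field F] [Fintype F] (hF : ringChar F ≠ 2) : SD0 F := by
  intro ν g hν hg
  have hN : 2 * g + 1 = Q F ^ (2 * ν) := by rw [hg, ← pow_mul, mul_comm]
  have hn : 2 * ν ≠ 0 := by omega
  have h1 : 1 < Q F := Fintype.one_lt_card
  obtain ⟨k, hk⟩ : ∃ k, Q F ^ (2 * ν) = 4 * k + 1 := by
    obtain ⟨a, ha⟩ : Odd (Q F ^ ν) :=
      (Nat.odd_iff.2 (FiniteField.odd_card_of_char_ne_two hF)).pow
    exact ⟨a * a + a, by rw [← hN, hg, ha]; ring⟩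
  rw [hN]
  refine ⟨mem_sqF.2 ⟨?_, ?_, FiniteField.X_pow_card_pow_sub_X_natDegree_eq _ hn h1⟩, ?_⟩
  · refine monic_X_pow_sub ?_
    rw [degree_X]
    exact_mod_cast Nat.one_lt_pow hn h1
  · obtain ⟨p, hp⟩ := CharP.exists F
    obtain ⟨m, -, hm⟩ := FiniteField.card F p
    exact (galois_poly_separable p _
      (dvd_pow (by rw [Q, hm]; exact dvd_pow_self p m.ne_zero) hn)).squarefree
  · have hsub : (VV F (2 * (2 * ν))).filter (fun x => x ^ Q F ^ (2 * ν) = x) = VV F (2 * ν) := by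
      ext x
      rw [mem_filter, mem_VV (by omega), mem_VV hn]
      refine ⟨fun h => h.2, fun h => ⟨?_, h⟩⟩
      rw [two_mul (2 * ν), pow_add, pow_mul, h, h]
    have hc := card_filter_add_card_filter_not (s := VV F (2 * (2 * ν)))
      (fun x => x ^ Q F ^ (2 * ν) = x)
    rw [hsub, card_VV hn, card_VV (by omega)] at hc
    have hs : ∑ x ∈ VV F (2 * (2 * ν)), jac (X ^ Q F ^ (2 * ν) - X : F[X]) (cc x (2 * (2 * ν))) =
        -((Q F : ℂ) ^ (2 * ν) * ((Q F : ℂ) ^ (2 * ν) - 1)) := by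
      rw [sum_congr rfl fun x hx => val_D0 hF hn hk ((mem_VV (by omega)).1 hx), sum_ite,
        sum_const_zero, zero_add, sum_const, nsmul_eq_mul]
      have h2 := congrArg (fun a : ℕ => (a : ℂ)) hc
      simp only [Nat.cast_add, Nat.cast_pow] at h2
      rw [two_mul (2 * ν), pow_add] at h2
      rw [two_mul (2 * ν)]
      linear_combination -h2
    have hq : (Q F : ℂ) ^ (2 * ν) = 2 * g + 1 := by exact_mod_cast hN.symm
    have h0 : (Q F : ℂ) ^ (2 * ν) ≠ 0 := pow_ne_zero _ Q_ne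
    rw [pp_eq_D0 _ (by omega), hs, inv_pow, pow_mul (sq F), sq_sq, mul_neg, neg_neg,
      inv_mul_cancel_left₀ h0, hq]
    push_cast
    ring

end Pool.Agent.MP_dd7250_nt.NR
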