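import Pool.Agent.MP_dd7250_nt.NR.Sa

set_option autoImplicit false

namespace Pool.Agent.MP_dd7250_nt.NR

open Finset Filter Pool.Agent.MP_dd7250_nt.LS
open scoped ComplexOrder

lemma dist_FD2 {j l : ℕ} {h : ℝ} (hh : 0 < h) (hl : l ≤ j) :
    ‖((pt j h l : ℝ) : ℂ) - ((2 * j * h : ℝ) : ℂ)‖ = (j - l) * h := by
  have : (l : ℝ) ≤ j := by exact_mod_cast hl
  rw [← Complex.ofReal_sub, Complex.norm_real, pt, Real.norm_eq_abs, abs_of_nonpos (by nlinarith)]
  ring

lemma far_FD2 {j l : ℕ} {h : ℝ} (hh : 0 < h) (hl : l ≤ j) {z : ℂ}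
    (hz : z ∈ Metric.sphere ((2 * j * h : ℝ) : ℂ) ((2 * j - 1) * h)) :
    ((j : ℝ) - 1 + l) * h ≤ ‖(j * h + -z + l * h : ℂ)‖ := by
  have h1 := dist_FD2 hh hl
  rw [mem_sphere_iff_norm] at hz
  have h2 := norm_sub_le_norm_sub_add_norm_sub z ((pt j h l : ℝ) : ℂ) ((2 * j * h : ℝ) : ℂ)
  have h3 : (j * h + -z + l * h : ℂ) = -(z - ((pt j h l : ℝ) : ℂ)) := by
    simp only [pt]
    push_cast
    ring
  rw [h3, norm_neg]
  linarith

lemma prod_FD2 (j : ℕ) (h : ℝ) : ∏ l ∈ range (1 + j), (((j : ℝ) - 1 + l) * h)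
    = (j - 1) * (j.ascFactorial j : ℝ) * h ^ (j + 1) := by
  rw [add_comm 1 j, prod_mul_distrib, prod_const, card_range, prod_range_succ',
    Nat.ascFactorial_eq_prod_range]
  push_cast
  rw [prod_congr rfl fun (l : ℕ) _ => show (j : ℝ) - 1 + (l + 1) = j + l by ring]
  ring

lemma ker_FD2 (h1 : SFD1) {j : ℕ} {h : ℝ} (hj : 2 ≤ j) (hh : 0 < h) {z : ℂ}
    (hz : z ∈ Metric.sphere ((2 * j * h : ℝ) : ℂ) ((2 * j - 1) * h)) :
    ‖∑ l ∈ range (j + 1), (-1) ^ l * (j.choose l : ℂ) * (z - ((pt j h l : ℝ) : ℂ))⁻¹‖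
      ≤ wj j / ((j - 1) * h) := by
  have hj' : (2 : ℝ) ≤ j := by exact_mod_cast hj
  have hp : ∀ l : ℕ, 0 < ((j : ℝ) - 1 + l) * h := fun l =>
    mul_pos (by linarith [l.cast_nonneg (α := ℝ)]) hh
  have e := h1 j 1 h (-z) fun l hl => norm_pos_iff.1 ((hp l).trans_le (far_FD2 hh (by omega) hz))
  have e2 : ∑ l ∈ range (j + 1), (-1) ^ l * (j.choose l : ℂ) * (z - ((pt j h l : ℝ) : ℂ))⁻¹
      = -Lm j h fun γ => (PH h 1 (γ + -z))⁻¹ := by
    rw [Lm, ← sum_neg_distrib]
    refine sum_congr rfl fun l _ => ?_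
    simp only [PH, prod_range_one, Nat.cast_zero, zero_mul, add_zero]
    rw [← mul_neg, ← inv_neg]
    congr 2
    ring
  have ha : (0 : ℝ) < j.ascFactorial j := by
    rw [Nat.ascFactorial_eq_prod_range]
    push_cast
    exact prod_pos fun l _ => by linarith [l.cast_nonneg (α := ℝ)]
  have h3 : (j - 1) * (j.ascFactorial j : ℝ) * h ^ (j + 1) ≤ ‖PH h (1 + j) (j * h + -z)‖ := by
    rw [← prod_FD2, PH, norm_prod]
    exact prod_le_prod (fun l _ => (hp l).le) fun l hl =>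
      far_FD2 hh (by have := mem_range.1 hl; omega) hz
  have h4 : (0 : ℝ) < j - 1 := by linarith
  rw [e2, norm_neg, e, norm_div, norm_mul, norm_pow, Complex.norm_real, Complex.norm_natCast,
    Real.norm_of_nonneg hh.le, Nat.one_ascFactorial]
  refine (div_le_div_of_nonneg_left (by positivity) (by positivity) h3).trans (le_of_eq ?_)
  rw [wj, pow_succ]
  field_simp

theorem fd2_pf (h1 : SFD1) : SFD2 := by
  intro j h B f hj hh hf hB
  have hj' : (2 : ℝ) ≤ j := by exact_mod_cast hj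
  have hR : (0 : ℝ) ≤ (2 * j - 1) * h := mul_nonneg (by linarith) hh.le
  have hre : ∀ z ∈ Metric.closedBall ((2 * j * h : ℝ) : ℂ) ((2 * j - 1) * h), h ≤ z.re := by
    intro z hz
    rw [mem_closedBall_iff_norm] at hz
    have := (abs_le.1 ((Complex.abs_re_le_norm _).trans hz)).1
    rw [Complex.sub_re, Complex.ofReal_re] at this
    linarith
  have hd : DifferentiableOn ℂ f (Metric.closedBall ((2 * j * h : ℝ) : ℂ) ((2 * j - 1) * h)) :=
    hf.mono fun z hz => hh.trans_le (hre z hz)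
  have hm : ∀ l ∈ range (j + 1),
      ((pt j h l : ℝ) : ℂ) ∈ Metric.ball ((2 * j * h : ℝ) : ℂ) ((2 * j - 1) * h) := by
    intro l hl
    rw [mem_ball_iff_norm, dist_FD2 hh (by have := mem_range.1 hl; omega)]
    exact mul_lt_mul_of_pos_right (by linarith [l.cast_nonneg (α := ℝ)]) hh
  have key : (∮ z in C(((2 * j * h : ℝ) : ℂ), (2 * j - 1) * h), ∑ l ∈ range (j + 1),
      (-1) ^ l * (j.choose l : ℂ) * ((z - ((pt j h l : ℝ) : ℂ))⁻¹ • f z))
      = (2 * Real.pi * Complex.I : ℂ) * Lm j h f := by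
    rw [circleIntegral.integral_fun_sum, Lm, mul_sum]
    · refine sum_congr rfl fun l hl => ?_
      rw [circleIntegral.integral_const_mul, hd.circleIntegral_sub_inv_smul (hm l hl), smul_eq_mul]
      ring
    · intro l hl
      refine ContinuousOn.circleIntegrable hR (continuousOn_const.mul (ContinuousOn.smul
        ((continuousOn_id.sub continuousOn_const).inv₀ fun z hz => ?_)
        (hd.continuousOn.mono Metric.sphere_subset_closedBall)))
      refine sub_ne_zero.2 fun (e : z = ((pt j h l : ℝ) : ℂ)) => ?_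
      have := hm l hl
      rw [← e] at this
      exact (Metric.mem_ball.1 this).ne (Metric.mem_sphere.1 hz)
  have h4 : (0 : ℝ) < j - 1 := by linarith
  have hw : 0 ≤ wj j := by unfold wj; positivity
  have hB0 : 0 ≤ B := (norm_nonneg _).trans (hB h (by simp))
  have bd : ‖(2 * Real.pi * Complex.I : ℂ) * Lm j h f‖
      ≤ 2 * Real.pi * ((2 * j - 1) * h) * (wj j / ((j - 1) * h) * B) := by
    rw [← key]
    refine circleIntegral.norm_integral_le_of_norm_le_const hR fun z hz => ?_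
    simp only [smul_eq_mul, ← mul_assoc]
    rw [← sum_mul, norm_mul]
    exact mul_le_mul (ker_FD2 h1 hj hh hz) (hB z (hre z (Metric.sphere_subset_closedBall hz)))
      (norm_nonneg _) (by positivity)
  have hn : ‖(2 * Real.pi * Complex.I : ℂ)‖ = 2 * Real.pi := by
    simp [abs_of_pos Real.pi_pos]
  rw [norm_mul, hn, mul_assoc (2 * Real.pi)] at bd
  refine (le_of_mul_le_mul_left bd (by positivity)).trans ?_
  rw [show (2 * j - 1) * h * (wj j / ((j - 1) * h) * B) = (2 * j - 1) / (j - 1) * (wj j * B) by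
    field_simp, mul_assoc]
  refine mul_le_mul_of_nonneg_right ?_ (mul_nonneg hw hB0)
  rw [div_le_iff₀ h4]
  linarith

end Pool.Agent.MP_dd7250_nt.NR
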