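import Pool.Agent.MP_dd7250_nt.NR.Sa

set_option autoImplicit false

namespace Pool.Agent.MP_dd7250_nt.NR

open Finset Filter Pool.Agent.MP_dd7250_nt.LS
open scoped ComplexOrder

theorem PH_succ_b (h : ℝ) (k : ℕ) (y : ℂ) : PH h (k + 1) y = PH h k y * (y + k * h) := by
  rw [PH, prod_range_succ, PH]

theorem PH_succ_b' (h : ℝ) (k : ℕ) (y : ℂ) : PH h (k + 1) y = PH h k (y + h) * y := by
  rw [PH, prod_range_succ', PH]
  simp only [Nat.cast_zero, zero_mul, add_zero]
  congr 1
  refine prod_congr rfl fun l _ => ?_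
  push_cast
  ring

theorem gen_b (r : ℕ) (h : ℝ) (j : ℕ) : ∀ y : ℂ, (∀ l < r + j, (y + l * h : ℂ) ≠ 0) →
    ∑ l ∈ range (j + 1), (-1) ^ l * (j.choose l : ℂ) * (PH h r (y + l * h))⁻¹ =
      r.ascFactorial j * (h : ℂ) ^ j / PH h (r + j) y := by
  induction j with
  | zero => intro y _; simp
  | succ j ih =>
    intro y hy
    have a := ih y fun l hl => hy l (by omega)
    have b := ih (y + h) fun l hl => by
      have := hy (l + 1) (by omega)
      push_cast at this
      rwa [add_assoc, add_comm (h : ℂ), ← add_one_mul]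
    have c := Finset.sum_choose_succ_mul (R := ℂ)
      (fun l _ => (-1) ^ l * (PH h r (y + l * h))⁻¹) j
    have e : ∀ l : ℕ, y + ((l + 1 : ℕ) : ℂ) * h = y + h + l * h := fun l => by push_cast; ring
    simp only [e, pow_succ] at c
    have n1 : PH h (r + j) y ≠ 0 := prod_ne_zero_iff.2 fun l hl => hy l (by
      have := mem_range.1 hl; omega)
    have n2 : y ≠ 0 := by simpa using hy 0 (by omega)
    have n3 : y + ((r + j : ℕ) : ℂ) * h ≠ 0 := hy (r + j) (by omega)
    have p1 := PH_succ_b h (r + j) y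
    have p2 := PH_succ_b' h (r + j) y
    have n4 : PH h (r + j) (y + h) = PH h (r + j) y * (y + ((r + j : ℕ) : ℂ) * h) / y := by
      rw [← p1, p2, mul_div_cancel_right₀ _ n2]
    calc _ = ∑ l ∈ range (j + 2), ((j + 1).choose l : ℂ) * ((-1) ^ l * (PH h r (y + l * h))⁻¹) :=
          sum_congr rfl fun l _ => by ring
      _ = r.ascFactorial j * (h : ℂ) ^ j / PH h (r + j) y -
          r.ascFactorial j * (h : ℂ) ^ j / PH h (r + j) (y + h) := by
          rw [c, ← a, ← b, sub_eq_add_neg, ← sum_neg_distrib]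
          congr 1 <;> exact sum_congr rfl fun l _ => by ring
      _ = _ := by
          rw [← add_assoc, p1, n4, Nat.ascFactorial_succ]
          push_cast at n3 ⊢
          field_simp
          ring

theorem fd1b_pf : SFD1 := by
  intro j r h s hs
  rw [← gen_b r h j (j * h + s) hs, Lm]
  refine sum_congr rfl fun l _ => ?_
  congr 3
  rw [pt]
  push_cast
  ring

theorem asc_b (j : ℕ) : ∀ r : ℕ, j.factorial * j ^ r ≤ (r + 1).ascFactorial j * r.factorial := by
  intro r
  have h := Nat.factorial_mul_ascFactorial r j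
  rw [mul_comm ((r + 1).ascFactorial j), h, add_comm r j, ← Nat.factorial_mul_ascFactorial j r]
  refine Nat.mul_le_mul_left _ (le_trans ?_ (Nat.pow_succ_le_ascFactorial (j + 1) r))
  exact Nat.pow_le_pow_left (Nat.le_succ j) r

theorem fd3b_pf : SFD3 := by
  refine ⟨fun j r h h1 h2 hh => ?_, fun j hj => ?_, fun j h B f hf => ?_⟩
  · have j0 : (0 : ℝ) < j := by exact_mod_cast (by omega : 0 < j)
    have e := fd1b_pf j r h 0 fun l _ => by
      have : (0 : ℝ) < j * h + l * h := by positivity
      exact_mod_cast (by simpa using this.ne' : (j * h + 0 + l * h : ℝ) ≠ 0)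
    simp only [add_zero] at e
    have e2 : PH h (r + j) (j * h) = ((h ^ (r + j) * j.ascFactorial (r + j) : ℝ) : ℂ) := by
      rw [PH, Nat.ascFactorial_eq_prod_range]
      push_cast
      rw [← card_range (r + j), ← prod_const, card_range, ← prod_mul_distrib]
      exact prod_congr rfl fun l _ => by ring
    obtain ⟨r, rfl⟩ : ∃ k, r = k + 1 := ⟨r - 1, by omega⟩
    have a1 : (0 : ℝ) < j.ascFactorial j := by
      obtain ⟨i, rfl⟩ : ∃ k, j = k + 1 := ⟨j - 1, by omega⟩
      exact_mod_cast Nat.ascFactorial_pos i _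
    have a2 : j.ascFactorial (r + 1 + j) ≤ j.ascFactorial j * (3 * j) ^ (r + 1) := by
      rw [add_comm (r + 1) j, ← Nat.ascFactorial_mul_ascFactorial]
      refine Nat.mul_le_mul_left _ ?_
      rw [Nat.ascFactorial_eq_prod_range, ← card_range (r + 1), ← prod_const, card_range]
      exact prod_le_prod' fun l hl => by have := mem_range.1 hl; omega
    have a3 : j.factorial * j ^ r ≤ (r + 1).ascFactorial j * (r + 1) ^ (r + 1) :=
      (asc_b j r).trans (Nat.mul_le_mul_left _ ((Nat.factorial_le_pow r).trans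
        ((Nat.pow_le_pow_left (Nat.le_succ r) r).trans (Nat.pow_le_pow_right (by omega) (by omega)))))
    have a4 : (0 : ℝ) < j.ascFactorial (r + 1 + j) := by
      obtain ⟨i, rfl⟩ : ∃ k, j = k + 1 := ⟨j - 1, by omega⟩
      exact_mod_cast Nat.ascFactorial_pos i _
    have b2 : (j.ascFactorial (r + 1 + j) : ℝ) ≤ j.ascFactorial j * (3 * j) ^ (r + 1) := by
      exact_mod_cast a2
    have b3 : (j.factorial : ℝ) * j ^ r ≤ (r + 1).ascFactorial j * ((r + 1 : ℕ) : ℝ) ^ (r + 1) := by
      exact_mod_cast a3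
    rw [e, e2, norm_div, norm_mul, norm_pow, Complex.norm_natCast, Complex.norm_real,
      Complex.norm_real, Real.norm_of_nonneg hh.le, Real.norm_of_nonneg (by positivity), wj]
    have r0 : (0 : ℝ) < ((r + 1 : ℕ) : ℝ) := by positivity
    generalize ((r + 1 : ℕ) : ℝ) = R at b3 r0 ⊢
    calc (j.factorial : ℝ) / j.ascFactorial j / j * (1 / (3 * R * h)) ^ (r + 1)
        = (j.factorial * j ^ r / R ^ (r + 1)) * h ^ j /
          (h ^ (r + 1 + j) * (j.ascFactorial j * (3 * j) ^ (r + 1))) := by
          simp only [one_div, inv_pow, mul_pow, pow_add]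
          field_simp
      _ ≤ _ := by
          gcongr
          rwa [div_le_iff₀ (by positivity)]
  · have a1 : (0 : ℝ) < j.ascFactorial j := by
      obtain ⟨i, rfl⟩ : ∃ k, j = k + 1 := ⟨j - 1, by omega⟩
      exact_mod_cast Nat.ascFactorial_pos i _
    have a2 : j.ascFactorial j ≤ j.factorial * 4 ^ j := by
      rw [Nat.ascFactorial_eq_factorial_mul_choose']
      refine Nat.mul_le_mul_left _ ((Nat.choose_le_two_pow _ _).trans ?_)
      rw [show 4 = 2 ^ 2 by norm_num, ← pow_mul]
      exact Nat.pow_le_pow_right (by norm_num) (by omega)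
    have a3 : (j.ascFactorial j : ℝ) ≤ j.factorial * 4 ^ j := by exact_mod_cast a2
    rw [wj, le_div_iff₀ a1, one_div, inv_pow, inv_mul_le_iff₀ (by positivity)]
    linarith
  · refine (norm_sum_le _ _).trans ?_
    have : (2 : ℝ) ^ j = ∑ l ∈ range (j + 1), (j.choose l : ℝ) := by
      exact_mod_cast (Nat.sum_range_choose j).symm
    rw [this, sum_mul]
    refine sum_le_sum fun l hl => ?_
    rw [norm_mul, norm_mul, norm_pow, norm_neg, norm_one, one_pow, one_mul, Complex.norm_natCast]
    exact mul_le_mul_of_nonneg_left (hf l (Nat.lt_succ_iff.1 (mem_range.1 hl))) (Nat.cast_nonneg _)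

end Pool.Agent.MP_dd7250_nt.NR
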