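import Pool.Agent.MP_dd7250_nt.NR.Sb

set_option autoImplicit false

namespace Pool.Agent.MP_dd7250_nt.NR

open Polynomial Finset Pool.Agent.MP_d232b3_nt Pool.Agent.MP_dd7250_nt Pool.Agent.MP_dd7250_nt.LS
  Pool.Agent.MP_dd7250_nt.SH
open scoped Classical

theorem sign_FE {e : ℂ} (he : e ^ 2 = 1) (d : ℕ) {n m g : ℕ} (h : n + m = 2 * g) :
    e ^ (d * n) = e ^ (d * m) := by
  have h1 : e ^ (d * n) * e ^ (d * m) = 1 := by
    rw [← pow_add, ← mul_add, h, mul_left_comm, pow_mul, he, one_pow]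
  have h2 : e ^ (d * m) * e ^ (d * m) = 1 := by
    rw [← pow_add, ← two_mul, pow_mul, he, one_pow]
  linear_combination e ^ (d * m) * h1 - e ^ (d * n) * h2

theorem alg_FE {s x a b : ℂ} (hs : s ≠ 0) (hx : x ≠ 0) {n m g : ℕ} (h : n + m = 2 * g)
    (hab : (s ^ 2) ^ g * a = (s ^ 2) ^ n * b) :
    a * (x * s⁻¹) ^ n = x ^ (2 * g) * (b * (x⁻¹ * s⁻¹) ^ m) := by
  rw [← pow_mul, ← h, pow_add, ← pow_mul, two_mul, pow_add, mul_assoc, mul_assoc] at hab
  have h1 := mul_left_cancel₀ (pow_ne_zero n hs) hab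
  have h2 := pow_ne_zero n hs
  have h3 := pow_ne_zero m hs
  have h4 := pow_ne_zero m hx
  rw [← h, pow_add, mul_pow, mul_pow, inv_pow, inv_pow, inv_pow]
  field_simp
  linear_combination h1

theorem fe_pf (F : Type) [Field F] [Fintype F] (hF : ringChar F ≠ 2) : SFE F := by
  intro g D hD x hx
  obtain ⟨hm, hs, hd⟩ := mem_sqF.1 hD
  have hsq : sq F ≠ 0 := fun e => Q_ne (F := F) (by rw [← sq_sq, e]; simp)
  rw [LD, LD, Lt, Lt, ← sum_flip (fun n => algebraMap ℂ ℂ (AA (jac D) n) * (x⁻¹ * (sq F)⁻¹) ^ n),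
    mul_sum]
  refine sum_congr rfl fun n hn => ?_
  have h1 : n ≤ 2 * g := Nat.lt_succ_iff.1 (mem_range.1 hn)
  have h2 : n + (2 * g - n) = 2 * g := by omega
  simp only [Algebra.algebraMap_self, RingHom.id_apply]
  refine alg_FE hsq hx h2 ?_
  rw [sq_sq, fe_AA_recip hF hm, fe_AA_recip hF hm, sign_FE eta_neg_one_sq _ h2, mul_left_comm,
    fe_odd hF hm hs hd h1, mul_left_comm]

end Pool.Agent.MP_dd7250_nt.NR
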