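import Pool.Agent.MP_dd7250_nt.NR.Sb

set_option autoImplicit false

namespace Pool.Agent.MP_dd7250_nt.NR

open Polynomial Finset Pool.Agent.MP_d232b3_nt Pool.Agent.MP_dd7250_nt Pool.Agent.MP_dd7250_nt.LS
  Pool.Agent.MP_dd7250_nt.SH
open scoped Classical

theorem feb_pf (F : Type) [Field F] [Fintype F] (hF : ringChar F ≠ 2) : SFE F := by
  intro g D hD x hx
  obtain ⟨hm, hs, hd⟩ := mem_sqF.1 hD
  have hq : sq F ≠ 0 := fun h => Q_ne (F := F) (by rw [← sq_sq, h]; simp)
  rw [LD, LD, Lt, Lt, mul_sum, ← sum_flip]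
  refine sum_congr rfl fun n hn => ?_
  obtain ⟨k, hk⟩ := Nat.exists_eq_add_of_le (Nat.lt_succ_iff.1 (mem_range.1 hn))
  have e1 : 2 * g - n = k := by omega
  have a := fe_odd hF hm hs (n := n) hd (by omega)
  have b : eta F (-1) ^ (D.natDegree * k) = eta F (-1) ^ (D.natDegree * n) := by
    have h1 : eta F (-1) ^ (D.natDegree * k) * eta F (-1) ^ (D.natDegree * n) = 1 := by
      rw [← pow_add, ← mul_add, add_comm, ← hk, mul_left_comm, pow_mul, eta_neg_one_sq, one_pow]
    have h2 : eta F (-1) ^ (D.natDegree * n) * eta F (-1) ^ (D.natDegree * n) = 1 := by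
      rw [← mul_pow, ← pow_two, eta_neg_one_sq, one_pow]
    exact mul_right_cancel₀ (right_ne_zero_of_mul_eq_one h1) (h1.trans h2.symm)
  rw [e1] at a ⊢
  rw [fe_AA_recip hF hm, fe_AA_recip hF hm, b, hk]
  simp only [Algebra.algebraMap_self, RingHom.id_apply, mul_pow, inv_pow, pow_add]
  rw [← sq_sq (F := F), ← pow_mul, ← pow_mul, hk, pow_add, mul_comm 2 n, pow_mul] at a
  field_simp
  have c : sq F ^ n ≠ 0 := pow_ne_zero _ hq
  apply mul_left_cancel₀ c
  linear_combination (-eta F (-1) ^ (D.natDegree * n)) * a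

end Pool.Agent.MP_dd7250_nt.NR
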