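import Pool.Agent.MP_dd7250_nt.NR.Sb

/- The range of the numerator shifts: the pieces of the main argument. -/

set_option autoImplicit false

namespace Pool.Agent.MP_dd7250_nt.NR

open Polynomial Finset Pool.Agent.MP_d232b3_nt Pool.Agent.MP_dd7250_nt Pool.Agent.MP_dd7250_nt.LS
  Pool.Agent.MP_dd7250_nt.SH
open scoped Classical ComplexOrder

theorem Lm_congr {j : ℕ} {h : ℝ} {f f' : ℂ → ℂ} (e : ∀ l ≤ j, f (pt j h l) = f' (pt j h l)) :
    Lm j h f = Lm j h f' :=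
  sum_congr rfl fun l hl => by rw [e l (Nat.lt_succ_iff.1 (mem_range.1 hl))]

theorem Lm_sum {ι : Type*} (s : Finset ι) (j : ℕ) (h : ℝ) (a : ι → ℂ) (f : ι → ℂ → ℂ) :
    Lm j h (fun γ => ∑ i ∈ s, a i * f i γ) = ∑ i ∈ s, a i * Lm j h (f i) := by
  simp only [Lm, mul_sum]
  rw [sum_comm]
  exact sum_congr rfl fun i _ => sum_congr rfl fun l _ => by ring

theorem Lm_sub (j : ℕ) (h : ℝ) (f f' : ℂ → ℂ) :
    Lm j h f - Lm j h f' = Lm j h fun γ => f γ - f' γ := by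
  simp only [Lm, mul_sub, sum_sub_distrib]

theorem Lm_mul (j : ℕ) (h : ℝ) (a : ℂ) (f : ℂ → ℂ) :
    Lm j h (fun γ => a * f γ) = a * Lm j h f := by
  simp only [Lm, mul_sum]
  exact sum_congr rfl fun l _ => by ring

theorem Lm_diff {j : ℕ} {h : ℝ} {f : ℂ → ℂ → ℂ} {S : Set ℂ}
    (hf : ∀ l ≤ j, DifferentiableOn ℂ (fun z => f z (pt j h l)) S) :
    DifferentiableOn ℂ (fun z => Lm j h (f z)) S :=
  DifferentiableOn.fun_sum fun l hl =>
    (hf l (Nat.lt_succ_iff.1 (mem_range.1 hl))).const_mul _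

theorem Lm_conj {j : ℕ} {h : ℝ} {f : ℂ → ℂ} (hf : ∀ x : ℝ, (starRingEnd ℂ) (f x) = f x) :
    (starRingEnd ℂ) (Lm j h f) = Lm j h f := by
  simp only [Lm, map_sum, map_mul, map_pow, map_neg, map_one, map_natCast, hf]

theorem pt_ge {j : ℕ} {h : ℝ} (hj : 1 ≤ j) (hh : 0 < h) (l : ℕ) : h ≤ pt j h l := by
  have h1 : (1 : ℝ) ≤ j := by exact_mod_cast hj
  have h2 : (0 : ℝ) ≤ l := Nat.cast_nonneg l
  rw [pt]
  nlinarith

theorem half_le {u : ℝ} (h0 : 0 ≤ u) (h1 : u ≤ 1) : u / 2 ≤ 1 - Real.exp (-u) := by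
  have h2 := Real.add_one_le_exp u
  have h3 : Real.exp (-u) * Real.exp u = 1 := by rw [← Real.exp_add]; simp
  have h4 := Real.exp_pos (-u)
  nlinarith [mul_le_mul_of_nonneg_left h2 h4.le]

theorem one_sub_exp_le {w : ℂ} (hw : 0 ≤ w.re) : ‖1 - Complex.exp (-w)‖ ≤ ‖w‖ := by
  have h := Convex.norm_image_sub_le_of_norm_hasDerivWithin_le (𝕜 := ℂ)
    (f := fun u : ℂ => Complex.exp (-u)) (f' := fun u => -Complex.exp (-u)) (C := 1)
    (s := {u : ℂ | 0 ≤ u.re}) (x := w) (y := 0)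
    (fun u _ => by simpa using ((hasDerivAt_neg u).cexp).hasDerivWithinAt)
    (fun u hu => by
      rw [norm_neg, Complex.norm_exp, Complex.neg_re]
      exact Real.exp_le_one_iff.2 (neg_nonpos.2 hu))
    (convex_halfSpace_re_ge 0) hw (by simp)
  simpa using h

theorem lam_conj {N : ℕ} {θ : Fin N → ℝ} (h : Cj θ) (x : ℝ) :
    (starRingEnd ℂ) (Lam θ x) = Lam θ x := by
  refine Eq.trans ?_ (h.lam x)
  rw [Lam, map_prod]
  refine prod_congr rfl fun i _ => ?_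
  rw [map_sub, map_one, map_mul, Complex.conj_ofReal, ← Complex.exp_conj]
  simp

theorem PH_ge {h : ℝ} (hh : 0 < h) (r : ℕ) {γ : ℂ} (hγ : 0 ≤ γ.re) : ‖γ‖ ^ r ≤ ‖PH h r γ‖ := by
  rw [PH, norm_prod, ← card_range r, ← prod_const, card_range]
  refine prod_le_prod (fun _ _ => norm_nonneg _) fun l _ => ?_
  refine (sq_le_sq₀ (norm_nonneg _) (norm_nonneg _)).1 ?_
  have h1 : (0 : ℝ) ≤ l * h := by positivity
  rw [Complex.sq_norm, Complex.sq_norm, Complex.normSq_apply, Complex.normSq_apply]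
  simp only [Complex.add_re, Complex.add_im, Complex.mul_re, Complex.mul_im, Complex.natCast_re,
    Complex.natCast_im, Complex.ofReal_re, Complex.ofReal_im]
  nlinarith [mul_nonneg h1 hγ]

variable {F : Type} [Field F] [Fintype F]

theorem xv_real (x : ℝ) : xv F x = ((Real.exp (-(lq F * x)) : ℝ) : ℂ) := by
  rw [xv_eq]
  push_cast
  rfl

theorem xv_lt {γ : ℂ} (h : 0 < γ.re) : ‖xv F γ‖ < 1 := by
  rw [norm_xv]
  exact qp_lt_one (by linarith)

variable (F)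

/-- The multiplier in the denominator variables. -/
noncomputable def MM {N : ℕ} (θ : Fin N → ℝ) (n r : ℕ) (h : ℝ) (γ : ℂ) : ℂ :=
  Lam θ (xv F γ) / (((2 * n * lq F : ℝ) : ℂ) ^ r * PH h r γ)

/-- The numerators on the line, with the multiplier. -/
noncomputable def NN' (g : ℕ) (f : ℂ → ℂ) (z : ℂ) : ℂ :=
  (Complex.exp ((1 * lq F : ℝ) * z) - 1) * (Complex.exp ((2 * lq F : ℝ) * z) - 1) *
    (Complex.exp ((3 * lq F : ℝ) * z) - 1) * (Complex.exp ((4 * lq F : ℝ) * z) - 1) *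
    ((Complex.exp (g * ((lq F : ℝ) * z)) * f (Complex.exp (-((lq F : ℝ) * z)))) *
      (Complex.exp (g * ((2 * lq F : ℝ) * z)) * f (Complex.exp (-((2 * lq F : ℝ) * z)))))

variable {F}

theorem MM_diff {N : ℕ} (θ : Fin N → ℝ) {n : ℕ} (hn : 1 ≤ n) (r : ℕ) {h : ℝ} (hh : 0 < h) :
    DifferentiableOn ℂ (MM F θ n r h) {γ | 0 < γ.re} := by
  have hx := xv_diff (F := F)
  have hl := lq_pos_GX (F := F)
  unfold MM Lam
  refine DifferentiableOn.div (by fun_prop) (by unfold PH; fun_prop) fun γ hγ => ?_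
  refine mul_ne_zero (pow_ne_zero _ (Complex.ofReal_ne_zero.2 (by positivity))) ?_
  have h1 : γ ≠ 0 := fun e => by simp [e] at hγ
  exact norm_pos_iff.1 ((pow_pos (norm_pos_iff.2 h1) r).trans_le (PH_ge hh r (le_of_lt hγ)))

theorem MM_le {N : ℕ} {θ : Fin N → ℝ} {n r m : ℕ} (hn : 1 ≤ n) {h : ℝ} (hh : 0 < h)
    (hu : ∀ x, ‖Lam θ x‖ ≤ ‖1 - x ^ (2 * n)‖ ^ r * (1 + ‖x‖) ^ m) {γ : ℂ} (hγ : 0 < γ.re) :
    ‖MM F θ n r h γ‖ ≤ 2 ^ m := by
  have hl := lq_pos_GX (F := F)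
  have h1 : γ ≠ 0 := fun e => by simp [e] at hγ
  have h2 := norm_pos_iff.2 h1
  have h3 := PH_ge hh r hγ.le
  have h4 : (0 : ℝ) < 2 * n * lq F := by positivity
  have h5 : ‖1 - xv F γ ^ (2 * n)‖ ≤ 2 * n * lq F * ‖γ‖ := by
    have := one_sub_exp_le (w := ((2 * n * lq F : ℝ) : ℂ) * γ) (by
      rw [Complex.re_ofReal_mul]; positivity)
    rw [norm_mul, Complex.norm_real, Real.norm_of_nonneg h4.le] at this
    rw [xv_eq, ← Complex.exp_nat_mul]
    convert this using 4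
    push_cast
    ring
  rw [MM, norm_div, norm_mul, norm_pow, Complex.norm_real, Real.norm_of_nonneg h4.le,
    div_le_iff₀ (mul_pos (pow_pos h4 r) ((pow_pos h2 r).trans_le h3))]
  calc ‖Lam θ (xv F γ)‖ ≤ (2 * n * lq F * ‖γ‖) ^ r * 2 ^ m := by
        refine (hu _).trans ?_
        have := (xv_lt (F := F) hγ).le
        gcongr
        linarith
    _ ≤ _ := by
        rw [mul_pow, mul_comm]
        gcongr

theorem MM_conj {N : ℕ} {θ : Fin N → ℝ} (hθ : Cj θ) (n r : ℕ) (h x : ℝ) :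
    (starRingEnd ℂ) (MM F θ n r h x) = MM F θ n r h x := by
  rw [MM, xv_real, map_div₀, lam_conj hθ, map_mul, map_pow, Complex.conj_ofReal, PH, map_prod]
  simp only [map_add, map_mul, map_natCast, Complex.conj_ofReal]

theorem NN_pos (hP : SPos) (hQ : SPair) {g : ℕ} {θ : Fin (2 * g) → ℝ}
    (h : ∀ x : ℂ, x ≠ 0 → Lam θ x = x ^ (2 * g) * Lam θ x⁻¹) : Pos (NN' F g (Lam θ)) := by
  have hl := (lq_pos_GX (F := F)).le
  obtain ⟨p1, -, p3, -⟩ := hP
  exact p1 _ _ (p1 _ _ (p1 _ _ (p1 _ _ (p3 _ (by positivity)) (p3 _ (by positivity)))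
    (p3 _ (by positivity))) (p3 _ (by positivity))) (p1 _ _ (hQ g θ h _) (hQ g θ h _))

theorem NN_ge (hF : ringChar F ≠ 2) {N : ℕ} {θ : Fin N → ℝ} {n r m : ℕ} (hn : 1 ≤ n) (g : ℕ)
    (hu : ∀ x : ℂ, ‖x‖ ≤ 1 → ‖1 - x ^ (2 * n)‖ ^ r * (1 - ‖x‖) ^ m ≤ ‖Lam θ x‖) {t : ℝ}
    (ht : 0 < t) (h1 : 4 * n * lq F * t ≤ 1) :
    t ^ 4 * ((n * lq F * t) ^ r * (t / 2) ^ m) ^ 2 ≤ ‖NN' F g (Lam θ) t‖ := by
  have hl := one_le_lq hF
  have hn' : (1 : ℝ) ≤ n := by exact_mod_cast hn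
  have a1 : ∀ a : ℝ, 1 ≤ a → t ≤ ‖Complex.exp ((a : ℝ) * (t : ℂ)) - 1‖ := fun a ha => by
    rw [← Complex.ofReal_mul, ← Complex.ofReal_exp, ← Complex.ofReal_one, ← Complex.ofReal_sub,
      Complex.norm_real]
    refine le_trans ?_ (le_abs_self _)
    nlinarith [Real.add_one_le_exp (a * t)]
  have a2 : ∀ a : ℝ, lq F ≤ a → a ≤ 2 * lq F → (n * lq F * t) ^ r * (t / 2) ^ m ≤
      ‖Complex.exp (g * ((a : ℝ) * (t : ℂ))) * Lam θ (Complex.exp (-((a : ℝ) * (t : ℂ))))‖ := by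
    intro a b1 b2
    have b3 : 0 ≤ a * t := by nlinarith
    have b4 : 2 * n * (a * t) ≤ 1 := by nlinarith [mul_le_mul_of_nonneg_left b2 (by positivity : 0 ≤ 2 * n * t)]
    have b5 : a * t ≤ 1 := by nlinarith
    have e1 : ‖Complex.exp (-((a : ℝ) * (t : ℂ)))‖ = Real.exp (-(a * t)) := by
      rw [Complex.norm_exp]; simp
    have e2 : 1 ≤ ‖Complex.exp (g * ((a : ℝ) * (t : ℂ)))‖ := by
      rw [Complex.norm_exp]
      refine Real.one_le_exp ?_
      simp only [Complex.mul_re, Complex.natCast_re, Complex.natCast_im, Complex.ofReal_re,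
        Complex.ofReal_im, mul_zero, sub_zero, zero_mul]
      positivity
    have e3 : n * lq F * t ≤ ‖1 - Complex.exp (-((a : ℝ) * (t : ℂ))) ^ (2 * n)‖ := by
      have e4 := half_le (u := 2 * n * (a * t)) (by positivity) b4
      have e5 : Complex.exp (-((a : ℝ) * (t : ℂ))) ^ (2 * n) =
          ((Real.exp (-(2 * n * (a * t))) : ℝ) : ℂ) := by
        rw [← Complex.exp_nat_mul]
        push_cast
        congr 1
        ring
      rw [e5, ← Complex.ofReal_one, ← Complex.ofReal_sub, Complex.norm_real]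
      refine le_trans ?_ (le_abs_self _)
      nlinarith [mul_le_mul_of_nonneg_left b1 (by positivity : 0 ≤ n * t)]
    have e6 : t / 2 ≤ 1 - Real.exp (-(a * t)) := by
      have := half_le b3 b5
      nlinarith
    have e7 := hu (Complex.exp (-((a : ℝ) * (t : ℂ)))) (by
      rw [e1]; exact Real.exp_le_one_iff.2 (by linarith))
    rw [e1] at e7
    rw [norm_mul]
    refine le_trans ?_ (le_mul_of_one_le_left (norm_nonneg _) e2)
    refine le_trans ?_ e7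
    gcongr
  have c1 := a1 (1 * lq F) (by linarith)
  have c2 := a1 (2 * lq F) (by linarith)
  have c3 := a1 (3 * lq F) (by linarith)
  have c4 := a1 (4 * lq F) (by linarith)
  have c5 := a2 (lq F) le_rfl (by linarith)
  have c6 := a2 (2 * lq F) (by linarith) le_rfl
  rw [NN', norm_mul, norm_mul, norm_mul, norm_mul, norm_mul,
    show t ^ 4 = t * t * t * t by ring, pow_two]
  gcongr

theorem NN_le {N : ℕ} {θ : Fin N → ℝ} {n r m : ℕ} (g : ℕ)
    (hu : ∀ x, ‖Lam θ x‖ ≤ ‖1 - x ^ (2 * n)‖ ^ r * (1 + ‖x‖) ^ m) {R : ℝ}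
    (h1 : 4 * n * lq F * R ≤ 1) :
    ∃ A : ℝ, ∀ z : ℂ, ‖z‖ ≤ R → ‖NN' F g (Lam θ) z‖ ≤ A * ‖z‖ ^ (2 * r) := by
  have hl := (lq_pos_GX (F := F)).le
  have a2 : ∀ a : ℝ, 0 ≤ a → a ≤ 2 * lq F → ∀ z : ℂ, ‖z‖ ≤ R →
      ‖Lam θ (Complex.exp (-((a : ℝ) * z)))‖ ≤
        (8 * n * lq F * ‖z‖) ^ r * (1 + ‖Complex.exp (-((a : ℝ) * z))‖) ^ m := by
    intro a b1 b2 z hz
    refine (hu _).trans ?_
    have e : ‖((2 * n : ℕ) : ℂ) * -((a : ℝ) * z)‖ ≤ 4 * n * lq F * ‖z‖ := by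
      rw [norm_mul, norm_neg, norm_mul, Complex.norm_natCast, Complex.norm_real,
        Real.norm_of_nonneg b1]
      push_cast
      nlinarith [mul_le_mul_of_nonneg_left b2 (by positivity : 0 ≤ 2 * n * ‖z‖)]
    have e1 := Complex.norm_exp_sub_one_le (e.trans
      ((mul_le_mul_of_nonneg_left hz (by positivity)).trans h1))
    gcongr
    rw [← Complex.exp_nat_mul, norm_sub_rev]
    linarith
  let V : ℂ → ℝ := fun z =>
    ‖(Complex.exp ((1 * lq F : ℝ) * z) - 1) * (Complex.exp ((2 * lq F : ℝ) * z) - 1) *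
      (Complex.exp ((3 * lq F : ℝ) * z) - 1) * (Complex.exp ((4 * lq F : ℝ) * z) - 1)‖ *
      (‖Complex.exp (g * ((lq F : ℝ) * z))‖ * (1 + ‖Complex.exp (-((lq F : ℝ) * z))‖) ^ m *
        (‖Complex.exp (g * ((2 * lq F : ℝ) * z))‖ *
          (1 + ‖Complex.exp (-((2 * lq F : ℝ) * z))‖) ^ m))
  obtain ⟨B, hB⟩ := (isCompact_closedBall (0 : ℂ) R).exists_bound_of_continuousOn
    (f := V) (by fun_prop)
  refine ⟨B * (8 * n * lq F) ^ (2 * r), fun z hz => ?_⟩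
  have c1 := a2 (lq F) hl (by linarith) z hz
  have c2 := a2 (2 * lq F) (by linarith) le_rfl z hz
  calc ‖NN' F g (Lam θ) z‖ ≤ V z * (8 * n * lq F * ‖z‖) ^ (2 * r) := by
        rw [NN', norm_mul, norm_mul (Complex.exp _ * _), norm_mul (Complex.exp _) (Lam θ _),
          norm_mul (Complex.exp _) (Lam θ _)]
        refine le_trans (mul_le_mul_of_nonneg_left (mul_le_mul
          (mul_le_mul_of_nonneg_left c1 (norm_nonneg _))
          (mul_le_mul_of_nonneg_left c2 (norm_nonneg _)) (by positivity) (by positivity))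
          (norm_nonneg _)) (le_of_eq ?_)
        simp only [V]
        ring
    _ ≤ B * (8 * n * lq F * ‖z‖) ^ (2 * r) :=
        mul_le_mul_of_nonneg_right ((le_abs_self _).trans (hB z (mem_closedBall_zero_iff.2 hz)))
          (by positivity)
    _ = _ := by ring

end Pool.Agent.MP_dd7250_nt.NR
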