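import Pool.Agent.MP_dd7250_nt.NR.Ma

/- The range of the numerator shifts: the main argument. -/

set_option autoImplicit false

namespace Pool.Agent.MP_dd7250_nt.NR

open Polynomial Finset Pool.Agent.MP_d232b3_nt Pool.Agent.MP_dd7250_nt Pool.Agent.MP_dd7250_nt.LS
  Pool.Agent.MP_dd7250_nt.SH
open scoped Classical ComplexOrder

variable {F : Type} [Field F] [Fintype F]

theorem key_id (h2 : SNW2 F) (g j : ℕ) (h : ℝ) (M : ℂ → ℂ) (z : ℂ) :
    Lm j h (fun δ => M δ * Lm j h fun γ =>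
      M γ * (UU F g z * WW F z (2 * z) * av4 F g z (2 * z) γ δ)) =
    ∑ D ∈ sqF F (2 * g + 1), (Lm j h fun γ => M γ / LD F g D (xv F γ)) ^ 2 /
      ((Q F - 1) * (Q F : ℂ) ^ (2 * g)) * NN' F g (LD F g D) z := by
  have e1 : xv F z = Complex.exp (-((lq F : ℝ) * z)) := xv_eq z
  have e2 : xv F (2 * z) = Complex.exp (-((2 * lq F : ℝ) * z)) := by
    rw [xv_eq]
    push_cast
    congr 1
    ring
  have e3 : ∀ δ, M δ * (Lm j h fun γ =>
      M γ * (UU F g z * WW F z (2 * z) * av4 F g z (2 * z) γ δ)) =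
      ∑ D ∈ sqF F (2 * g + 1), ((Lm j h fun γ => M γ / LD F g D (xv F γ)) /
        ((Q F - 1) * (Q F : ℂ) ^ (2 * g)) * NN' F g (LD F g D) z) *
          (M δ / LD F g D (xv F δ)) := by
    intro δ
    have e4 : ∀ γ, M δ * (M γ * (UU F g z * WW F z (2 * z) * av4 F g z (2 * z) γ δ)) =
        ∑ D ∈ sqF F (2 * g + 1), (NN' F g (LD F g D) z / ((Q F - 1) * (Q F : ℂ) ^ (2 * g)) *
          (M δ / LD F g D (xv F δ))) * (M γ / LD F g D (xv F γ)) := by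
      intro γ
      rw [(h2 g).2.2.2 z, av4, sum_div, mul_sum, mul_sum, mul_sum]
      refine sum_congr rfl fun D _ => ?_
      rw [NN', ← e1, ← e2]
      simp only [div_eq_mul_inv, mul_inv]
      ring
    rw [← Lm_mul]
    simp only [e4]
    rw [Lm_sum]
    exact sum_congr rfl fun D _ => by ring
  simp only [e3]
  rw [Lm_sum]
  exact sum_congr rfl fun D _ => by ring

theorem xv_ne_one {α : ℂ} (h0 : α ≠ 0) (h : lq F * ‖α‖ ≤ 1) : xv F α ≠ 1 := by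
  have h1 := le_xv_sub_one h
  have h2 := mul_pos (lq_pos_GX (F := F)) (norm_pos_iff.2 h0)
  intro e
  rw [e, sub_self, norm_zero] at h1
  linarith

theorem WW_line {z : ℂ} (h0 : z ≠ 0) (h : lq F * ‖z‖ ≤ 1 / 64) : WW F z (2 * z) ≠ 0 := by
  have a : ∀ k : ℕ, 1 ≤ k → k ≤ 4 → 1 - xv F z ^ k ≠ 0 := fun k h1 h4 => by
    have e : xv F z ^ k = xv F (k * z) := by
      rw [xv_eq, xv_eq, ← Complex.exp_nat_mul]
      congr 1
      ring
    have h5 : (k : ℝ) ≤ 4 := by exact_mod_cast h4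
    rw [e]
    refine sub_ne_zero.2 (xv_ne_one (mul_ne_zero (Nat.cast_ne_zero.2 (by omega)) h0) ?_).symm
    rw [norm_mul, Complex.norm_natCast]
    nlinarith [mul_nonneg (lq_pos_GX (F := F)).le (norm_nonneg z)]
  have e : WW F z (2 * z) = -(xv F z * ((1 - xv F z ^ 1) * (1 - xv F z ^ 2) * (1 - xv F z ^ 3) *
      (1 - xv F z ^ 4))) := by
    rw [WW, xv_two]
    ring
  rw [e]
  exact neg_ne_zero.2 (mul_ne_zero (xv_ne z) (mul_ne_zero (mul_ne_zero (mul_ne_zero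
    (a 1 le_rfl (by norm_num)) (a 2 (by norm_num) (by norm_num)))
    (a 3 (by norm_num) (by norm_num))) (a 4 (by norm_num) le_rfl)))

/-- The conjectured bound on a circle gives the inequality. -/
theorem ineq_of (hF : ringChar F ≠ 2) (hP : SPos) (hA : SAN) (hQ : SPair) (hR : SRoot)
    (hD2 : SFD2) (hD3 : SFD3) (hE : SFE F) (h0 : SD0 F) (hT : STr F) (h2 : SNW2 F) {K₁ : ℝ}
    (h1 : ∀ (g : ℕ) (R : ℝ) (z : ℂ), ‖z‖ ≤ R → lq F * R ≤ 1 / 64 →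
      ‖UU F g z * WW F z (2 * z)‖ ≤ Real.exp (3 * g * (lq F * R)) * K₁ ∧
      ∀ (h : ℝ) (γ δ : ℂ), 0 < h → h ≤ 1 → h ≤ γ.re → h ≤ δ.re →
        ‖PN F g z γ δ‖ ≤ Real.exp (3 * g * (lq F * R)) * (K₁ / h))
    {θ A η K h ρ : ℝ} {ν g r m j : ℕ} (hp : Par (Q F) θ A ν g r m j) (hh : 0 < h) (hh1 : h ≤ 1)
    (hρ : 0 < ρ) (hρ1 : ρ ≤ 1 / (64 * (2 * ν) * lq F))
    (hb : ∀ z : ℂ, ‖z‖ = ρ → ∀ l ≤ j, ∀ l' ≤ j,
      ‖av4 F g z (2 * z) (pt j h l) (pt j h l') - pred F g z (2 * z) (pt j h l) (pt j h l')‖ ≤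
        K * (Q F : ℝ) ^ (-(η * g))) :
    Ineq (Q F) η (K₁ * K) K₁ (wj j) h (ρ / 2) (2 * ν) g r m j := by
  have hl := one_le_lq hF
  have hν : (1 : ℝ) ≤ ν := by exact_mod_cast hp.hν
  have hn : 1 ≤ 2 * ν := by have := hp.hν; omega
  have hj : 1 ≤ j := by have := hp.j2; omega
  obtain ⟨d1, d2⟩ := h0 ν g hp.hν hp.hg
  generalize (X ^ (2 * g + 1) - X : F[X]) = D₀ at d1 d2
  choose! th t1 t2 t3 using fun D (hD : D ∈ sqF F (2 * g + 1)) => zero_data hF hD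
  have t4 : ∀ D ∈ sqF F (2 * g + 1), LD F g D = Lam (th D) := fun D hD => funext (t2 D hD)
  have hr := hR (2 * g) (2 * ν) r m (Q F ^ ν) (th D₀) hn (t1 D₀ d1)
    (by rw [← t3 D₀ d1 _ (by omega), d2])
    (fun i i1 i2 => by rw [← t3 D₀ d1 i i1]; exact hT D₀ ν i i1 i2) hp.rm hp.m1
  set R : ℝ := 1 / (64 * (2 * ν) * lq F) with hRe
  have R0 : 0 < R := hρ.trans_le hρ1
  have R1 : 64 * (2 * ν) * lq F * R = 1 := by rw [hRe]; field_simp
  have R2 : lq F * R ≤ 1 / 128 := by nlinarith [mul_pos (zero_lt_one.trans_le hl) R0]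
  have R3 : R ≤ 1 / 128 := by nlinarith
  have R4 : 3 * g * (lq F * R) = 3 * g / (64 * ((2 * ν : ℕ) : ℝ)) := by
    rw [hRe]; push_cast; field_simp
  let M := MM F (th D₀) (2 * ν) r h
  have M1 : ∀ γ : ℂ, h ≤ γ.re → ‖M γ‖ ≤ 2 ^ m := fun γ hγ =>
    MM_le hn hh (fun x => (hr x).1) (hh.trans_le hγ)
  have M2 : DifferentiableOn ℂ M {γ | 0 < γ.re} := MM_diff _ hn r hh
  have p1 : ∀ l, h ≤ ((pt j h l : ℝ) : ℂ).re := fun l => pt_ge hj hh l
  let H : ℂ := (Q F - 1) * (Q F : ℂ) ^ (2 * g)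
  have q1 : (1 : ℝ) < Q F := one_lt_Q
  have H1 : H = ((((Q F : ℝ) - 1) * (Q F : ℝ) ^ (2 * g) : ℝ) : ℂ) := by push_cast; rfl
  have H2 : (0 : ℝ) < ((Q F : ℝ) - 1) * (Q F : ℝ) ^ (2 * g) := mul_pos (by linarith) (by positivity)
  let T : F[X] → ℂ := fun D => Lm j h fun γ => M γ / LD F g D (xv F γ)
  have pos : ∀ D ∈ sqF F (2 * g + 1), Pos fun z => T D ^ 2 / H * NN' F g (LD F g D) z := by
    intro D hD
    refine hP.1 _ _ (hP.2.1 _ ?_) ?_
    · have e : (starRingEnd ℂ) (T D) = T D := Lm_conj fun x => by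
        rw [map_div₀, MM_conj (t1 D₀ d1), t4 D hD, xv_real, lam_conj (t1 D hD)]
      rw [← Complex.conj_eq_iff_re.1 e, H1, ← Complex.ofReal_pow, ← Complex.ofReal_div]
      exact Complex.zero_le_real.2 (by positivity)
    · rw [t4 D hD]
      exact NN_pos hP hQ fun x hx => by rw [← t4 D hD]; exact hE g D hD x hx
  obtain ⟨A₀, hA₀⟩ := NN_le (F := F) g (fun x => (hr x).1) (R := R) (by push_cast; nlinarith)
  have w0 : 0 ≤ wj j := le_trans (by positivity) (hD3.2.1 j hj)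
  have fin := hA (fun z => T D₀ ^ 2 / H * NN' F g (LD F g D₀) z)
    (fun z => ∑ D ∈ (sqF F (2 * g + 1)).erase D₀, T D ^ 2 / H * NN' F g (LD F g D) z)
    (fun z => Lm j h fun δ => M δ * Lm j h fun γ => M γ * PN F g z γ δ) ρ R
    (4 ^ j * 4 ^ m * Real.exp (3 * g * (lq F * R)) * (K₁ * K * (Q F : ℝ) ^ (-(η * g))))
    (16 * wj j ^ 2 * 4 ^ m * Real.exp (3 * g * (lq F * R)) * (K₁ / h))
    (‖T D₀ ^ 2 / H‖ * A₀) (2 * r) (pos D₀ d1)
    (hP.2.2.2.2 _ _ _ fun D hD => pos D (mem_of_mem_erase hD)).2 hρ hρ1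
    (Lm_diff fun l _ => (Lm_diff fun l' _ => (((h2 g).1 _ _ (hh.trans_le (p1 l'))
      (hh.trans_le (p1 l))).mono (Metric.ball_subset_ball (by linarith))).const_mul _).const_mul _)
    (fun z hz => ?_) (fun z hz => ?_) (fun z hz => ?_)
  · have e1 : T D₀ = ((((2 * (2 * ν : ℕ) * lq F : ℝ) : ℂ)) ^ r)⁻¹ *
        Lm j h fun γ => (PH h r γ)⁻¹ := by
      rw [← Lm_mul]
      refine Lm_congr fun l _ => ?_
      have := (z_lim (t1 D₀ d1) (xv_lt (F := F) (hh.trans_le (p1 l)))).1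
      simp only [M, MM, t4 D₀ d1]
      field_simp
    have h4 : (0 : ℝ) < 2 * (2 * ν : ℕ) * lq F := by positivity
    have e2 : wj j / j * (1 / (3 * r * h)) ^ r / (2 * (2 * ν : ℕ) * lq F) ^ r ≤ ‖T D₀‖ := by
      rw [e1, norm_mul, norm_inv, norm_pow, Complex.norm_real, Real.norm_of_nonneg h4.le,
        ← div_eq_inv_mul]
      exact div_le_div_of_nonneg_right (hD3.1 j r h hp.r1 hp.rj hh) (by positivity)
    have e3 := NN_ge hF hn g (fun x => (hr x).2) (t := ρ / 2) (by linarith) (by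
      push_cast
      nlinarith [mul_le_mul_of_nonneg_left hρ1 (by positivity : 0 ≤ 64 * (2 * ν) * lq F)])
    have e4 : ((Q F : ℝ) ^ (2 * g + 1))⁻¹ ≤ ‖H‖⁻¹ := by
      rw [H1, Complex.norm_real, Real.norm_of_nonneg H2.le]
      refine inv_anti₀ H2 ?_
      rw [pow_succ']
      exact mul_le_mul_of_nonneg_right (by linarith) (by positivity)
    have e5 : ρ / 2 / R = 64 * (2 * ν : ℕ) * lq F * (ρ / 2) := by
      rw [hRe]; push_cast; field_simp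
    rw [e5, R4, norm_mul, norm_div, norm_pow, div_eq_inv_mul, t4 D₀ d1] at fin
    refine le_trans ?_ fin
    have hr0 : (0 : ℝ) < r := by exact_mod_cast hp.r1
    exact mul_le_mul (mul_le_mul e4 (pow_le_pow_left₀ (by positivity) e2 2) (by positivity)
      (by positivity)) e3 (by positivity) (by positivity)
  · have z0 : z ≠ 0 := norm_pos_iff.1 (hz ▸ hρ)
    have z1 : ‖z‖ ≤ R := hz.le.trans hρ1
    have z2 : WW F z (2 * z) ≠ 0 := WW_line z0 (by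
      nlinarith [mul_le_mul_of_nonneg_left z1 (zero_le_one.trans hl)])
    have b1 := (h1 g R z z1 (by linarith)).1
    rw [add_sum_erase _ (fun D => T D ^ 2 / H * NN' F g (LD F g D) z) d1, ← key_id h2, Lm_sub]
    refine (hD3.2.2 j h (2 ^ m * (2 ^ j * (2 ^ m * (Real.exp (3 * g * (lq F * R)) * K₁ *
      (K * (Q F : ℝ) ^ (-(η * g))))))) _ fun l' hl' => ?_).trans_eq ?_
    · rw [← mul_sub, Lm_sub, norm_mul]
      refine mul_le_mul (M1 _ (p1 l')) (hD3.2.2 j h _ _ fun l hl => ?_) (norm_nonneg _)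
        (by positivity)
      have e := pred_eq (g := g) z2 (pt j h l) (pt j h l')
      rw [div_eq_iff z2] at e
      rw [← mul_sub, norm_mul, PN, mul_assoc, ← mul_sub, e, mul_comm _ (WW F z (2 * z)),
        ← mul_assoc, norm_mul]
      exact mul_le_mul (M1 _ (p1 l)) (mul_le_mul b1 (hb z hz l hl l' hl') (norm_nonneg _)
        ((norm_nonneg _).trans b1)) (by positivity) (by positivity)
    · rw [show (4 : ℝ) = 2 * 2 by norm_num, mul_pow, mul_pow]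
      ring
  · have z1 : ‖z‖ ≤ 1 / 64 := by linarith
    have b1 := (h1 g R z hz.le (by linarith)).2 h
    refine (hD2 j h (2 ^ m * (4 * wj j * (2 ^ m * (Real.exp (3 * g * (lq F * R)) * (K₁ / h))))) _
      hp.j2 hh (M2.fun_mul (Lm_diff fun l _ =>
        ((h2 g).2.2.1 z _ z1 (hh.trans_le (p1 l))).const_mul _)) fun δ hδ => ?_).trans_eq ?_
    · rw [norm_mul]
      refine mul_le_mul (M1 _ hδ) (hD2 j h _ _ hp.j2 hh
        (M2.fun_mul ((h2 g).2.1 z δ z1 (hh.trans_le hδ))) fun γ hγ => ?_) (norm_nonneg _)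
        (by positivity)
      rw [norm_mul]
      exact mul_le_mul (M1 _ hγ) (b1 γ δ hh hh1 hγ hδ) (norm_nonneg _) (by positivity)
    · rw [show (4 : ℝ) ^ m = 2 ^ m * 2 ^ m by rw [← mul_pow]; norm_num]
      ring
  · rw [norm_mul, mul_assoc, t4 D₀ d1]
    exact mul_le_mul_of_nonneg_left (hA₀ z hz) (norm_nonneg _)

theorem main_of (hF : ringChar F ≠ 2) (hq : Odd (Q F)) (hP : SPos) (hA : SAN) (hQ : SPair)
    (hR : SRoot) (hD2 : SFD2) (hD3 : SFD3) (hE : SFE F) (h0 : SD0 F) (hT : STr F) (h1 : SNW1 F)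
    (h2 : SNW2 F) (hN : SNumA) (hC : SNumC) {η θ : ℝ} (hθ : 0 < θ) (hη : 2 * θ < η) :
    ∃ c₀ : ℝ, 0 < c₀ ∧ ∀ c : ℝ, 0 < c → c ≤ c₀ → ∀ (K : ℝ) (g₀ : ℕ), ∃ g : ℕ, g₀ ≤ g ∧ 1 ≤ g ∧
      ∃ (z : ℂ) (γ δ : ℝ), ‖z‖ = (g : ℝ) ^ (-θ) / 2 ∧ lq F * ‖z‖ ≤ 1 / 64 ∧ c / g ≤ γ ∧
        γ ≤ 2 * c / g ∧ c / g ≤ δ ∧ δ ≤ 2 * c / g ∧
        K * (Q F : ℝ) ^ (-(η * g)) < ‖av4 F g z (2 * z) γ δ - pred F g z (2 * z) γ δ‖ := by
  have hl := one_le_lq hF
  have q3 : 3 ≤ Q F := by exact_mod_cast three_le_Q hF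
  obtain ⟨e, e0, e1, e2⟩ : ∃ e : ℝ, 0 < e ∧ e ≤ 1 ∧ 10 * e ≤ η - 2 * θ :=
    ⟨min 1 ((η - 2 * θ) / 10), lt_min one_pos (by linarith), min_le_left _ _,
      by linarith [min_le_right 1 ((η - 2 * θ) / 10)]⟩
  obtain ⟨K₁, -, h1⟩ := h1
  refine ⟨e / (4000 * lq F), by positivity, fun c c0 c1 K g₀ => ?_⟩
  have c2 : 4000 * lq F * c ≤ e := by rwa [mul_comm, ← le_div_iff₀ (by positivity)]
  obtain ⟨A, hA'⟩ := hC (Q F) η θ e c (K₁ * K) K₁ q3 hθ e0 e1 e2 c0 c2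
  obtain ⟨ν, ⟨g, r, m, hp⟩, hν⟩ :=
    ((hN (Q F) θ e A q3 hq hθ e0).and (Filter.eventually_ge_atTop g₀)).exists
  have g1 : 1 ≤ g := hp.hν.trans hp.νg
  have g2 : (1 : ℝ) ≤ g := by exact_mod_cast g1
  have hj : 1 ≤ ⌈e * g⌉₊ := by have := hp.j2; omega
  refine ⟨g, hν.trans hp.νg, g1, ?_⟩
  by_contra hn
  push Not at hn
  refine hA' ν g r m _ hp (hD3.2.1 _ hj) ?_
  generalize ⌈e * (g : ℝ)⌉₊ = j at hp hj
  have j1 : (1 : ℝ) ≤ j := by exact_mod_cast hj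
  have ν1 : (1 : ℝ) ≤ ν := by exact_mod_cast hp.hν
  have a1 : ∀ l ≤ j, c / g ≤ pt j (c / (g * j)) l ∧ pt j (c / (g * j)) l ≤ 2 * c / g := by
    intro l hl'
    have l1 : (l : ℝ) ≤ j := by exact_mod_cast hl'
    have l0 : (0 : ℝ) ≤ l := Nat.cast_nonneg l
    have h3 : 0 < c / (g * j) := by positivity
    have h4 : c / g = j * (c / (g * j)) := by field_simp
    rw [mul_div_assoc, h4, pt]
    constructor <;> nlinarith
  have := ineq_of hF hP hA hQ hR hD2 hD3 hE h0 hT h2 h1 (η := η) (K := K) (h := c / (g * j))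
    (ρ := (g : ℝ) ^ (-θ) / 2) hp (by positivity)
    (by rw [div_le_one (by positivity)]; nlinarith) (by positivity) hp.rad
    fun z hz l hl' l' hl'' => hn z _ _ hz (by
      have h5 := hp.rad
      rw [← hz, le_div_iff₀ (by positivity)] at h5
      change ‖z‖ * (64 * (2 * ν) * lq F) ≤ 1 at h5
      nlinarith [mul_nonneg (norm_nonneg z) (zero_le_one.trans hl)])
      (a1 l hl').1 (a1 l hl').2 (a1 l' hl'').1 (a1 l' hl'').2
  rwa [div_div, show (2 : ℝ) * 2 = 4 by norm_num] at this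

end Pool.Agent.MP_dd7250_nt.NR
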