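import Pool.Agent.MP_dd7250_nt.NR.Sb

set_option autoImplicit false

namespace Pool.Agent.MP_dd7250_nt.NR

open Polynomial Finset Pool.Agent.MP_d232b3_nt Pool.Agent.MP_dd7250_nt Pool.Agent.MP_dd7250_nt.LS
  Pool.Agent.MP_dd7250_nt.SH
open scoped Classical

theorem sub_le_NW {a : ℂ} {s : ℝ} (h : ‖a‖ ≤ s) : ‖1 - a‖ ≤ 1 + s :=
  (norm_sub_le _ _).trans (by rw [norm_one]; linarith)

theorem mul_le_NW {a b : ℂ} {s t : ℝ} (h : ‖a‖ ≤ s) (h' : ‖b‖ ≤ t) : ‖a * b‖ ≤ s * t := by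
  rw [norm_mul]
  exact mul_le_mul h h' (norm_nonneg _) ((norm_nonneg _).trans h)

theorem pow_le_NW {a : ℂ} {s : ℝ} (h : ‖a‖ ≤ s) (n : ℕ) : ‖a ^ n‖ ≤ s ^ n := by
  rw [norm_pow]
  exact pow_le_pow_left₀ (norm_nonneg _) h n

theorem alg_NW {x y : ℂ} (h : x * y = 1) (g : ℕ) (A B C D : ℂ) :
    -y ^ (11 + 3 * g) * (A + ((x ^ 2) ^ 2) ^ g * B +
      ((x ^ 2) ^ g * C + (x ^ 2) ^ g * ((x ^ 2) ^ 2) ^ g * D)) =
    -(y ^ 11 * ((y ^ g) ^ 3 * A + x ^ g * B + (y ^ g * C + (x ^ g) ^ 3 * D))) := by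
  have e : x ^ g * y ^ g = 1 := by rw [← mul_pow, h, one_pow]
  have e1 : y ^ (11 + 3 * g) = y ^ 11 * (y ^ g) ^ 3 := by rw [pow_add, mul_comm 3, pow_mul]
  have e2 : ((x ^ 2) ^ 2) ^ g = (x ^ g) ^ 4 := by simp only [← pow_mul]; congr 1; ring
  have e3 : (x ^ 2) ^ g = (x ^ g) ^ 2 := by simp only [← pow_mul]; congr 1; ring
  rw [e1, e2, e3]
  generalize x ^ g = a at *
  generalize y ^ g = b at *
  have f2 : (a * b) ^ 2 = 1 := by rw [e, one_pow]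
  have f3 : (a * b) ^ 3 = 1 := by rw [e, one_pow]
  linear_combination (-(y ^ 11 * a * B) - y ^ 11 * a ^ 3 * D) * f3 - y ^ 11 * b * C * f2

theorem alg2_NW {x y : ℂ} (h : x * y = 1) (g : ℕ) :
    -y ^ (11 + 3 * g) * ((1 - x ^ 2) * (1 - (x ^ 2) ^ 2) * (1 - x * x ^ 2) * (x ^ 2 - x)) =
      (y - 1) * (y ^ 2 - 1) * (y ^ 3 - 1) * (y ^ 4 - 1) * (y ^ g) ^ 3 := by
  have hy : y ≠ 0 := right_ne_zero_of_mul_eq_one h
  have hx : x = y⁻¹ := eq_inv_of_mul_eq_one_left h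
  rw [pow_add, mul_comm 3, pow_mul, hx]
  field_simp
  ring

variable {F : Type} [Field F] [Fintype F]

theorem xv_le_NW (hF : ringChar F ≠ 2) {z : ℂ} {R : ℝ} (h : ‖z‖ ≤ R) :
    ‖xv F z‖ ≤ Real.exp (lq F * R) := by
  rw [norm_xv, qp_eq Fintype.card_pos, Real.exp_le_exp]
  refine mul_le_mul_of_nonneg_left ?_ (zero_le_one.trans (one_le_lq hF))
  linarith [neg_le_abs z.re, Complex.abs_re_le_norm z]

theorem HH_le_NW (hF : ringChar F ≠ 2) : ∃ K : ℝ, 0 ≤ K ∧ ∀ (a b γ δ : ℂ) (h : ℝ),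
    ‖xv F a‖ ≤ 4 → ‖xv F b‖ ≤ 4 → -(1 / 32) ≤ a.re → -(1 / 32) ≤ b.re → 0 < h → h ≤ 1 →
    h ≤ γ.re → h ≤ δ.re → ‖HH F a b γ δ‖ ≤ K / h := by
  obtain ⟨K, hK, hA⟩ := AA4_re hF
  refine ⟨K * 1250, by positivity, fun a b γ δ h ha hb ra rb h0 h1 hγ hδ => ?_⟩
  have u3 := norm_xv_le hF h0.le h1 hγ
  have u4 : ‖xv F δ‖ ≤ 1 := by linarith [norm_xv_le hF h0.le h1 hδ]
  have u5 : ‖xv F γ‖ ≤ 1 := by linarith
  have a1 := norm_sub_norm_le 1 (xv F γ * xv F δ)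
  have a2 := mul_le_NW u3 u4
  rw [norm_one] at a1
  have a3 : h / 2 ≤ ‖1 - xv F γ * xv F δ‖ := by linarith
  have a4 := mul_le_NW (hA a b γ δ ra rb (by linarith) (by linarith))
    (mul_le_NW (mul_le_NW (mul_le_NW (sub_le_NW (mul_le_NW ha u5)) (sub_le_NW (mul_le_NW ha u4)))
      (sub_le_NW (mul_le_NW hb u5))) (sub_le_NW (mul_le_NW hb u4)))
  rw [HH, norm_div]
  refine (div_le_div₀ (by positivity) a4 (by positivity) a3).trans (le_of_eq ?_)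
  field_simp
  ring

theorem nw1_pf (F : Type) [Field F] [Fintype F] (hF : ringChar F ≠ 2) : SNW1 F := by
  obtain ⟨K, hK, hH⟩ := HH_le_NW hF
  refine ⟨2295 + 2 ^ 11 * (4 * (3072 * K)), by positivity, fun g R z hz hR => ?_⟩
  have hl := one_le_lq hF
  have R0 : 0 ≤ R := (norm_nonneg _).trans hz
  have R1 : R ≤ 1 / 64 := by nlinarith
  have hre : |z.re| ≤ 1 / 64 := by linarith [Complex.abs_re_le_norm z]
  obtain ⟨r1, r2⟩ := abs_le.1 hre
  have hx := xv_le_NW hF hz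
  have hy := xv_le_NW hF (z := -z) (R := R) (by rwa [norm_neg])
  have hE : Real.exp (3 * g * (lq F * R)) = (Real.exp (lq F * R) ^ g) ^ 3 := by
    rw [← pow_mul, ← Real.exp_nat_mul]
    congr 1
    push_cast
    ring
  have E1 : 1 ≤ Real.exp (lq F * R) := Real.one_le_exp (by positivity)
  have E2 : Real.exp (lq F * R) ≤ 2 := by
    rw [← neg_neg (lq F * R), Real.exp_neg, inv_le_comm₀ (Real.exp_pos _) two_pos]
    linarith [Real.add_one_le_exp (-(lq F * R))]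
  rw [hE]
  generalize Real.exp (lq F * R) = E at *
  have x2 := hx.trans E2
  have y2 := hy.trans E2
  have hxy : xv F z * (xv F z)⁻¹ = 1 := mul_inv_cancel₀ (xv_ne z)
  have b1 : ‖xv F (2 * z)‖ ≤ 4 := by rw [xv_two]; linarith [pow_le_NW x2 2]
  have b2 : ‖xv F (-(2 * z))‖ ≤ 4 := by rw [← mul_neg, xv_two]; linarith [pow_le_NW y2 2]
  have b3 : ‖xv F (-z)‖ ≤ 4 := by linarith
  rw [xv_neg] at hy y2
  have G1 : 1 ≤ E ^ g := one_le_pow₀ E1
  have G3 : E ^ g ≤ (E ^ g) ^ 3 := le_self_pow₀ G1 (by norm_num)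
  have p1 := pow_le_NW (pow_le_NW hy g) 3
  have p2 := (pow_le_NW hx g).trans G3
  have p3 := (pow_le_NW hy g).trans G3
  have p4 := pow_le_NW (pow_le_NW hx g) 3
  have P0 : 0 ≤ (E ^ g) ^ 3 := by positivity
  generalize (E ^ g) ^ 3 = P at *
  refine ⟨?_, fun h γ δ h0 h1 hγ hδ => ?_⟩
  · rw [UU, WW, xv_two, alg2_NW hxy]
    have s : ∀ n : ℕ, ‖(xv F z)⁻¹ ^ n - 1‖ ≤ 1 + 2 ^ n := fun n => by
      rw [norm_sub_rev]
      exact sub_le_NW (pow_le_NW y2 n)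
    have s1 := s 1
    rw [pow_one] at s1
    refine (mul_le_NW (mul_le_NW (mul_le_NW (mul_le_NW s1 (s 2)) (s 3)) (s 4)) p1).trans ?_
    have : 0 ≤ P * (2 ^ 11 * (4 * (3072 * K))) := by positivity
    linarith
  · have q1 : -(1 / 32) ≤ (2 * z).re := by simp; linarith
    have q2 : -(1 / 32) ≤ (-(2 * z)).re := by simp; linarith
    have q3 : -(1 / 32) ≤ (-z).re := by simp; linarith
    have H1 := hH z (2 * z) γ δ h (by linarith) b1 (by linarith) q1 h0 h1 hγ hδ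
    have H2 := hH z (-(2 * z)) γ δ h (by linarith) b2 (by linarith) q2 h0 h1 hγ hδ
    have H3 := hH (-z) (2 * z) γ δ h b3 b1 q3 q1 h0 h1 hγ hδ
    have H4 := hH (-z) (-(2 * z)) γ δ h b3 b2 q3 q2 h0 h1 hγ hδ
    have c0 := pow_le_NW x2 2
    have c1 : ‖xv F z ^ 2 - xv F z‖ ≤ 6 := (norm_sub_le _ _).trans (by linarith)
    have c2 := sub_le_NW (mul_le_NW x2 c0)
    have c3 := mul_le_NW (pow_le_NW c0 3) c2
    have c4 := mul_le_NW (pow_le_NW x2 3) c2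
    have c5 := mul_le_NW (mul_le_NW (pow_le_NW x2 3) (pow_le_NW c0 3)) c1
    rw [← norm_neg] at c3 c5
    have t1 := mul_le_NW p1 (mul_le_NW c1 H1)
    have t2 := mul_le_NW p2 (mul_le_NW c3 H2)
    have t3 := mul_le_NW p3 (mul_le_NW c4 H3)
    have t4 := mul_le_NW p4 (mul_le_NW c5 H4)
    rw [PN, UU, NW, xv_two, alg_NW hxy, norm_neg]
    have T0 : 0 ≤ P * (K / h) := by positivity
    have T1 : 0 ≤ P * (2295 / h) := by positivity
    refine (mul_le_NW (pow_le_NW y2 11) ((norm_add_le _ _).trans (add_le_add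
      ((norm_add_le _ _).trans (add_le_add t1 t2))
      ((norm_add_le _ _).trans (add_le_add t3 t4))))).trans ?_
    have e : P * ((2295 + 2 ^ 11 * (4 * (3072 * K))) / h) =
        P * (2295 / h) + 2 ^ 11 * (4 * (3072 * (P * (K / h)))) := by ring
    rw [e]
    nlinarith

theorem pn_diff_NW (hF : ringChar F ≠ 2) (g : ℕ) {u w v : ℂ → ℂ} {S : Set ℂ} (hS : IsOpen S)
    (hu : Differentiable ℂ u) (hw : Differentiable ℂ w) (hv : Differentiable ℂ v)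
    (hr : ∀ ζ ∈ S, ‖u ζ‖ ≤ 1 / 64 ∧ 0 < (w ζ).re ∧ 0 < (v ζ).re) :
    DifferentiableOn ℂ (fun ζ => PN F g (u ζ) (w ζ) (v ζ)) S := by
  have hx := xv_diff (F := F)
  have hH : ∀ {a b : ℂ → ℂ}, Differentiable ℂ a → Differentiable ℂ b →
      (∀ ζ ∈ S, ‖a ζ‖ ≤ 1 / 32) → (∀ ζ ∈ S, ‖b ζ‖ ≤ 1 / 32) →
      DifferentiableOn ℂ (fun ζ => HH F (a ζ) (b ζ) (w ζ) (v ζ)) S := fun {a b} ha hb h1 h2 => by
    have h3 := AA4_on hF hS ha hb hw hv fun ζ hζ =>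
      ⟨(abs_le.1 ((Complex.abs_re_le_norm _).trans (h1 ζ hζ))).1,
        (abs_le.1 ((Complex.abs_re_le_norm _).trans (h2 ζ hζ))).1,
        by linarith [(hr ζ hζ).2.1], by linarith [(hr ζ hζ).2.2]⟩
    unfold HH
    refine DifferentiableOn.div (by fun_prop) (by fun_prop) fun ζ hζ h4 => ?_
    rw [← xv_add] at h4
    have h5 : ‖xv F (w ζ + v ζ)‖ < 1 := by
      rw [norm_xv]
      exact qp_lt_one (by rw [Complex.add_re]; linarith [(hr ζ hζ).2.1, (hr ζ hζ).2.2])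
    rw [← sub_eq_zero.1 h4, norm_one] at h5
    exact lt_irrefl _ h5
  have a1 : ∀ ζ ∈ S, ‖u ζ‖ ≤ 1 / 32 := fun ζ hζ => by linarith [(hr ζ hζ).1]
  have a2 : ∀ ζ ∈ S, ‖2 * u ζ‖ ≤ 1 / 32 := fun ζ hζ => by
    rw [norm_mul, Complex.norm_two]; linarith [(hr ζ hζ).1]
  have a3 : ∀ ζ ∈ S, ‖-u ζ‖ ≤ 1 / 32 := fun ζ hζ => by rw [norm_neg]; exact a1 ζ hζ
  have a4 : ∀ ζ ∈ S, ‖-(2 * u ζ)‖ ≤ 1 / 32 := fun ζ hζ => by rw [norm_neg]; exact a2 ζ hζ
  have hu2 : Differentiable ℂ fun ζ => 2 * u ζ := by fun_prop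
  have k1 := hH hu hu2 a1 a2
  have k2 := hH hu hu2.fun_neg a1 a4
  have k3 := hH hu.fun_neg hu2 a3 a2
  have k4 := hH hu.fun_neg hu2.fun_neg a3 a4
  unfold PN UU NW
  simp only [← xv_neg]
  fun_prop

theorem nw2_pf (F : Type) [Field F] [Fintype F] (hF : ringChar F ≠ 2) : SNW2 F := by
  have ho : IsOpen {γ : ℂ | 0 < γ.re} := isOpen_lt continuous_const Complex.continuous_re
  refine fun g => ⟨fun γ δ hγ hδ => ?_, fun z δ hz hδ => ?_, fun z γ hz hγ => ?_, fun z => ?_⟩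
  · exact pn_diff_NW hF g Metric.isOpen_ball differentiable_id (differentiable_const γ)
      (differentiable_const δ) fun ζ hζ => ⟨(mem_ball_zero_iff.1 hζ).le, hγ, hδ⟩
  · exact pn_diff_NW hF g ho (differentiable_const z) differentiable_id
      (differentiable_const δ) fun ζ hζ => ⟨hz, hζ, hδ⟩
  · exact pn_diff_NW hF g ho (differentiable_const z) (differentiable_const γ)
      differentiable_id fun ζ hζ => ⟨hz, hγ, hζ⟩
  · have hy : (xv F z)⁻¹ = Complex.exp (lq F * z) := by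
      rw [xv_eq, Complex.exp_neg, inv_inv]
    have e : ∀ n : ℕ, Complex.exp (((n : ℝ) * lq F : ℝ) * z) = Complex.exp (lq F * z) ^ n :=
      fun n => by
        rw [← Complex.exp_nat_mul]
        congr 1
        push_cast
        ring
    have e1 := e 1
    have e2 := e 2
    have e3 := e 3
    have e4 := e 4
    simp only [Nat.cast_ofNat, Nat.cast_one] at e1 e2 e3 e4
    rw [UU, WW, xv_two, alg2_NW (mul_inv_cancel₀ (xv_ne z)), hy, Complex.exp_nat_mul,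
      Complex.exp_nat_mul, e1, e2, e3, e4]
    ring

end Pool.Agent.MP_dd7250_nt.NR
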