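import Pool.Agent.MP_dd7250_nt.NR.Sa

set_option autoImplicit false

namespace Pool.Agent.MP_dd7250_nt.NR

open Finset Filter Pool.Agent.MP_dd7250_nt.LS
open scoped ComplexOrder

theorem ev_NumA (k : ℕ) {b : ℝ} (hb : 1 < b) (C : ℝ) :
    ∀ᶠ n : ℕ in atTop, C * (n : ℝ) ^ k ≤ b ^ n := by
  have h := (tendsto_pow_const_div_const_pow_of_one_lt k hb).const_mul C
  rw [mul_zero] at h
  filter_upwards [h.eventually_le_const one_pos] with n hn
  rwa [← mul_div_assoc, div_le_one (pow_pos (one_pos.trans hb) n)] at hn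

theorem numA_pf : SNumA := by
  intro q θ e A hq ho hθ he
  have hb : (1 : ℝ) < 3 ^ θ := Real.one_lt_rpow (by norm_num) hθ
  filter_upwards [eventually_ge_atTop 1, tendsto_natCast_atTop_atTop.eventually_ge_atTop A,
    tendsto_natCast_atTop_atTop.eventually_ge_atTop (1 / e), ev_NumA 4 (b := 3) (by norm_num) 13,
    ev_NumA 1 hb (64 * Real.log q)] with ν h1 h2 h3 h4 h5
  obtain ⟨g, hg⟩ : Odd ((q ^ ν) ^ 2) := ho.pow.pow
  have h6 : 3 ^ ν ≤ q ^ ν := Nat.pow_le_pow_left hq ν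
  have h7 : 13 * ν ^ 4 ≤ q ^ ν := le_trans (by exact_mod_cast h4) h6
  have hqR : (q : ℝ) ^ ν = (q ^ ν : ℕ) := by push_cast; rfl
  have hL : 0 < Real.log q := Real.log_pos (by exact_mod_cast (by omega : 1 < q))
  obtain ⟨s, hs⟩ : ∃ s, q ^ ν = s := ⟨_, rfl⟩
  rw [hs] at hg h6 h7 hqR
  have n4 : ν ≤ ν ^ 4 := Nat.le_self_pow (by norm_num) ν
  have hsg : s ≤ g := by nlinarith
  have h8 : ν ^ 3 * s + s + 1 ≤ g / (2 * ν) := by
    rw [Nat.le_div_iff_mul_le (by omega)]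
    have a1 : 13 * ν ^ 4 * s ≤ s * s := Nat.mul_le_mul_right s h7
    have a2 : ν * s ≤ ν ^ 4 * s := Nat.mul_le_mul_right s n4
    have a3 : ν ≤ ν * s := Nat.le_mul_of_pos_right ν (by omega)
    have a4 : (ν ^ 3 * s + s + 1) * (2 * ν) = 2 * (ν ^ 4 * s) + 2 * (ν * s) + 2 * ν := by ring
    have a5 : s ^ 2 = s * s := sq s
    have a6 : 13 * ν ^ 4 * s = 13 * (ν ^ 4 * s) := by ring
    omega
  obtain ⟨r, hr⟩ : ∃ r, g / (2 * ν) = r + s := ⟨g / (2 * ν) - s, by omega⟩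
  have h9 := Nat.div_add_mod g (2 * ν)
  have h10 := Nat.mod_lt g (by omega : 0 < 2 * ν)
  rw [hr] at h8 h9
  obtain ⟨t, ht⟩ : ∃ t, g % (2 * ν) = t := ⟨_, rfl⟩
  rw [ht] at h9 h10
  have hν : (1 : ℝ) ≤ ν := by exact_mod_cast h1
  have h11 : 1 ≤ e * ν := by rwa [div_le_iff₀' he] at h3
  have hg0 : (0 : ℝ) < g := by exact_mod_cast (by omega : 0 < g)
  refine ⟨g, r, 2 * t + 4 * ν * s, h1, h2, by rw [hs, hg], by omega, by omega, ?_, ?_,
    by nlinarith, by rw [hs]; nlinarith [Nat.zero_le t], ?_, ?_, ?_⟩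
  · have a1 : ν * r ≤ g := by nlinarith [Nat.zero_le t, Nat.zero_le (ν * r), Nat.zero_le (ν * s)]
    have a2 : (ν : ℝ) * r ≤ g := by exact_mod_cast a1
    have a3 : (0 : ℝ) ≤ r := r.cast_nonneg
    have a4 : (r : ℝ) ≤ e * g := by nlinarith
    exact_mod_cast a4.trans (Nat.le_ceil _)
  · have a1 : (ν : ℝ) < g := by exact_mod_cast (by omega : ν < g)
    exact Nat.lt_ceil.2 (by push_cast; nlinarith)
  · have a3 : ν ≤ ν * s := Nat.le_mul_of_pos_right ν (by omega)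
    rw [hs]
    nlinarith
  · have a1 : ((ν : ℝ) ^ 3 * s) ≤ r := by exact_mod_cast (by omega : ν ^ 3 * s ≤ r)
    rw [hqR]
    refine le_trans ?_ a1
    calc A * ((ν : ℝ) ^ 2 * s) ≤ ν * ((ν : ℝ) ^ 2 * s) :=
          mul_le_mul_of_nonneg_right h2 (by positivity)
      _ = _ := by ring
  · have a1 : (3 : ℝ) ^ ν ≤ g := by exact_mod_cast h6.trans hsg
    have a2 : ((3 : ℝ) ^ θ) ^ ν ≤ (g : ℝ) ^ θ := by
      rw [← Real.rpow_natCast, ← Real.rpow_mul (by norm_num), mul_comm,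
        Real.rpow_mul (by norm_num), Real.rpow_natCast]
      exact Real.rpow_le_rpow (by positivity) a1 hθ.le
    rw [Real.rpow_neg hg0.le, inv_eq_one_div, div_div]
    refine one_div_le_one_div_of_le (by positivity) ?_
    have a3 := h5.trans a2
    rw [pow_one] at a3
    linarith

theorem numB_pf : SNumB := by
  intro q θ hq hθ
  have hq0 : (0 : ℝ) < q := by exact_mod_cast (by omega : 0 < q)
  have hL : 0 < Real.log q := Real.log_pos (by exact_mod_cast (by omega : 1 < q))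
  have hqe : (q : ℝ) = Real.exp (Real.log q) := (Real.exp_log hq0).symm
  obtain ⟨L, hLq⟩ : ∃ L, Real.log q = L := ⟨_, rfl⟩
  rw [hLq] at hL hqe
  refine ⟨9 * L + 4 * L + 16 + 20 * (3 + 2 * θ * L) + 4 * L, by positivity,
    fun A' ν g r m j h hj => ?_⟩
  have hν : (1 : ℝ) ≤ ν := by exact_mod_cast h.hν
  have hs1 : (1 : ℝ) ≤ (q : ℝ) ^ ν := one_le_pow₀ (by exact_mod_cast (by omega : 1 ≤ q))
  have hg : 2 * (g : ℝ) + 1 = ((q : ℝ) ^ ν) ^ 2 := by exact_mod_cast h.hg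
  have hm : (m : ℝ) ≤ 8 * ν * (q : ℝ) ^ ν := by exact_mod_cast h.m2
  have hjR : (j : ℝ) ≤ g + 1 := by exact_mod_cast hj
  have hse : ((q : ℝ) ^ ν) ^ 2 = Real.exp (2 * ν * L) := by
    rw [hqe, ← Real.exp_nat_mul, ← Real.exp_nat_mul]
    congr 1
    push_cast
    ring
  have e2 : (2 : ℝ) ≤ Real.exp 1 := by linarith [Real.add_one_le_exp (1 : ℝ)]
  have b1 : (q : ℝ) ^ (m + 1) = Real.exp ((m + 1) * L) := by
    rw [hqe, ← Real.exp_nat_mul]
    push_cast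
    rfl
  obtain ⟨s, hs⟩ : ∃ s, (q : ℝ) ^ ν = s := ⟨_, rfl⟩
  rw [hs] at hs1 hg hm hse
  rw [hs, b1]
  have g0 : (0 : ℝ) ≤ g := g.cast_nonneg
  have j0 : (0 : ℝ) ≤ j := j.cast_nonneg
  have c1 : (g : ℝ) ≤ Real.exp (2 * ν * L) := by linarith
  have c2 : (j : ℝ) ≤ Real.exp (2 * ν * L) := by linarith
  have d1 : ν * s ≤ (ν : ℝ) ^ 2 * s := mul_le_mul_of_nonneg_right (by nlinarith) (by linarith)
  have d2 : (ν : ℝ) ≤ ν * s := le_mul_of_one_le_right (by linarith) hs1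
  have b2 : (j : ℝ) ^ 2 ≤ Real.exp (4 * ν * L) := by
    rw [show 4 * ν * L = 2 * ν * L + 2 * ν * L by ring, Real.exp_add, sq]
    exact mul_le_mul c2 c2 j0 (Real.exp_pos _).le
  have b3 : (g : ℝ) * j ≤ Real.exp (4 * ν * L) := by
    rw [show 4 * ν * L = 2 * ν * L + 2 * ν * L by ring, Real.exp_add]
    exact mul_le_mul c1 c2 j0 (Real.exp_pos _).le
  have b4 : (4 : ℝ) ^ m ≤ Real.exp (2 * m) := by
    rw [show (4 : ℝ) = 2 ^ 2 by norm_num, ← pow_mul, show (2 : ℝ) * m = (2 * m : ℕ) * 1 by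
      push_cast; ring, Real.exp_nat_mul]
    exact pow_le_pow_left₀ (by norm_num) e2 _
  have b5 : 8 * (g : ℝ) ^ θ ≤ Real.exp (3 + 2 * ν * L * θ) := by
    rw [Real.exp_add, Real.exp_mul (2 * ν * L)]
    refine mul_le_mul ?_ (Real.rpow_le_rpow g0 c1 hθ.le) (by positivity) (Real.exp_pos _).le
    rw [show (8 : ℝ) = 2 ^ 3 by norm_num, show (3 : ℝ) = (3 : ℕ) * 1 by norm_num, Real.exp_nat_mul]
    exact pow_le_pow_left₀ (by norm_num) e2 _
  have b6 : (8 * (g : ℝ) ^ θ) ^ (2 * m + 4) ≤ Real.exp ((2 * m + 4) * (3 + 2 * ν * L * θ)) := by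
    rw [show (2 * m + 4 : ℝ) = (2 * m + 4 : ℕ) by push_cast; rfl, Real.exp_nat_mul]
    exact pow_le_pow_left₀ (by positivity) b5 _
  have b7 : (2 * m + 4) * (3 + 2 * ν * L * θ) ≤ 20 * (ν * s) * (ν * (3 + 2 * θ * L)) :=
    mul_le_mul (by linarith) (by linarith) (by positivity) (by positivity)
  calc _ ≤ Real.exp ((m + 1) * L) * Real.exp (4 * ν * L) * Real.exp (2 * m) *
        Real.exp ((2 * m + 4) * (3 + 2 * ν * L * θ)) * Real.exp (4 * ν * L) := by gcongr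
    _ ≤ _ := by
      simp only [← Real.exp_add]
      refine Real.exp_le_exp.2 ?_
      have f1 : (m + 1) * L ≤ 9 * ((ν : ℝ) ^ 2 * s) * L :=
        mul_le_mul_of_nonneg_right (by linarith) hL.le
      have f2 : ν * L ≤ (ν : ℝ) ^ 2 * s * L := mul_le_mul_of_nonneg_right (by linarith) hL.le
      linarith

end Pool.Agent.MP_dd7250_nt.NR
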