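import Pool.Agent.MP_dd7250_nt.NR.Sa

set_option autoImplicit false

namespace Pool.Agent.MP_dd7250_nt.NR

open Finset Filter Pool.Agent.MP_dd7250_nt.LS
open scoped ComplexOrder

theorem low_NumC (Q P w j h n L t g : ℝ) (r m : ℕ) (hQ : 0 < Q) (hP : 0 < P) (hj : 0 < j)
    (hh : 0 < h) (hn : 0 < n) (hL : 0 < L) (ht : 0 < t) (hg : 0 < g) (hr : 0 < (r : ℝ))
    (h1 : Q ≤ (3 * g) ^ (2 * r) * P) (h2 : 192 * n * L * t * (3 * g) ≤ t / (6 * r * h)) :
    w ^ 2 * (192 * n * L * t) ^ (2 * r) / (P * j ^ 2 * (2 / t) ^ (2 * m + 4)) ≤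
      Q⁻¹ * (w / j * (1 / (3 * r * h)) ^ r / (2 * n * L) ^ r) ^ 2 *
        (t ^ 4 * ((n * L * t) ^ r * (t / 2) ^ m) ^ 2) := by
  have a0 : (1 / (3 * r * h)) ^ r / (2 * n * L) ^ r * (n * L * t) ^ r = (t / (6 * r * h)) ^ r := by
    rw [← div_pow, ← mul_pow]
    congr 1
    field_simp
    ring
  have a1 : (192 * n * L * t) ^ (2 * r) * (3 * g) ^ (2 * r) ≤ (t / (6 * r * h)) ^ (2 * r) := by
    rw [← mul_pow]
    exact pow_le_pow_left₀ (by positivity) h2 _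
  have a2 : (t / 2) ^ (2 * m + 4) ≤ t ^ 4 * (t / 2) ^ (2 * m) := by
    rw [pow_add, mul_comm]
    exact mul_le_mul_of_nonneg_right (pow_le_pow_left₀ (by positivity) (by linarith) 4)
      (by positivity)
  have a3 : (2 / t) ^ (2 * m + 4) = ((t / 2) ^ (2 * m + 4))⁻¹ := by rw [← inv_pow, inv_div]
  have a4 : ((3 * g) ^ (2 * r) * P)⁻¹ ≤ Q⁻¹ := inv_anti₀ hQ h1
  calc w ^ 2 * (192 * n * L * t) ^ (2 * r) / (P * j ^ 2 * (2 / t) ^ (2 * m + 4))
      = ((3 * g) ^ (2 * r) * P)⁻¹ * (w ^ 2 / j ^ 2) *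
        ((192 * n * L * t) ^ (2 * r) * (3 * g) ^ (2 * r)) * (t / 2) ^ (2 * m + 4) := by
        rw [a3]
        field_simp
    _ ≤ Q⁻¹ * (w ^ 2 / j ^ 2) * (t / (6 * r * h)) ^ (2 * r) * (t ^ 4 * (t / 2) ^ (2 * m)) := by
        gcongr
    _ = _ := by
        rw [mul_comm 2 r, pow_mul, ← a0, mul_comm 2 m, pow_mul]
        ring

theorem two_NumC (w u Y F E K K' c G : ℝ) (r : ℕ) (hw : 0 < w) (hu : 0 < u) (hY : 0 < Y)
    (hF : 0 < F) (hE : 0 < E) (hK : K ≤ K') (hc : 0 < c) (hG : 0 < G)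
    (h : 64 * K' / c * E * (Y * F * G) < 9 ^ r) :
    2 * (2 * (16 * w ^ 2 * F * E * (K / (c / G))) * u ^ (2 * r)) <
      w ^ 2 * (3 * u) ^ (2 * r) / Y := by
  rw [lt_div_iff₀ hY, mul_pow, pow_mul 3, show (3 : ℝ) ^ 2 = 9 by norm_num]
  calc 2 * (2 * (16 * w ^ 2 * F * E * (K / (c / G))) * u ^ (2 * r)) * Y
      = w ^ 2 * u ^ (2 * r) * (64 * K / c * E * (Y * F * G)) := by field_simp; ring
    _ ≤ w ^ 2 * u ^ (2 * r) * (64 * K' / c * E * (Y * F * G)) := by gcongr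
    _ < w ^ 2 * u ^ (2 * r) * 9 ^ r := mul_lt_mul_of_pos_left h (by positivity)
    _ = _ := by ring

theorem one_NumC (w U V W Y F E K K' G : ℝ) (j : ℕ) (hw : (1 / 4 : ℝ) ^ j ≤ w) (hV : 0 < V)
    (hVU : V ≤ U) (hW : 0 < W) (hY : 0 < Y) (hF : 0 < F) (hE : 0 < E) (hK : K ≤ K')
    (hK' : 0 < K') (hG : 1 ≤ G) (h : 4 * K' * 64 ^ j * E * (Y * F * G) * W < V) :
    2 * (2 * (4 ^ j * F * E * (K * W))) < w ^ 2 * U / Y := by
  rw [lt_div_iff₀ hY]
  have a1 : (64 : ℝ) ^ j * ((1 / 4) ^ j) ^ 2 = 4 ^ j := by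
    rw [← pow_mul, mul_comm j 2, pow_mul, ← mul_pow]
    norm_num
  calc 2 * (2 * (4 ^ j * F * E * (K * W))) * Y
      = ((1 / 4) ^ j) ^ 2 * (4 * K * 64 ^ j * E * (Y * F * 1) * W) := by rw [← a1]; ring
    _ ≤ ((1 / 4) ^ j) ^ 2 * (4 * K' * 64 ^ j * E * (Y * F * G) * W) := by gcongr
    _ < ((1 / 4) ^ j) ^ 2 * V := mul_lt_mul_of_pos_left h (by positivity)
    _ ≤ w ^ 2 * U := by gcongr

theorem le_exp_NumC (x : ℝ) : x ≤ Real.exp |Real.log x| := by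
  rcases le_or_gt x 0 with h | h
  · exact h.trans (Real.exp_pos _).le
  · calc x = Real.exp (Real.log x) := (Real.exp_log h).symm
      _ ≤ _ := Real.exp_le_exp.2 (le_abs_self _)

theorem ar_NumC (ν g r m s X A A1 B1 B2 e : ℝ) (hA1 : 0 ≤ A1) (hB1 : 0 ≤ B1) (hB2 : 0 ≤ B2)
    (he : 0 < e) (kA : A = 5 + A1 + B1 + B2 + 1 / (5 * e)) (ν1 : 1 ≤ ν) (g1 : 1 ≤ g) (r1 : 1 ≤ r)
    (rm : 2 * (2 * ν) * r + m = 2 * g) (m0 : 0 ≤ m) (m2 : m ≤ 8 * ν * s) (s1 : 1 ≤ s) (X1 : s ≤ X)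
    (big : A * X ≤ r) (hAν : A ≤ ν) :
    B1 + 3 * g / (64 * (2 * ν)) + A1 * X < r * 2 ∧ 3 * g / (64 * (2 * ν)) ≤ e * g ∧
      2 * r ≤ 5 * (e * g) ∧ B2 + 5 + A1 * X ≤ r := by
  have he5 : 0 < 1 / (5 * e) := by positivity
  have X0 : 1 ≤ X := s1.trans X1
  have a1 := mul_le_mul_of_nonneg_left X0 hB1
  have a2 := mul_le_mul_of_nonneg_left X0 hB2
  have a3 := mul_nonneg he5.le (zero_le_one.trans X0)
  have a4 := mul_nonneg hA1 (zero_le_one.trans X0)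
  have a5 : 5 * X + A1 * X + B1 * X + B2 * X + 1 / (5 * e) * X ≤ r := by
    rw [kA] at big
    linarith
  have sr : s ≤ r := by linarith
  have a6 := mul_le_mul_of_nonneg_left sr (zero_le_one.trans ν1)
  have b1 : 3 * g / (64 * (2 * ν)) ≤ 9 * r / 64 := by
    rw [div_le_div_iff₀ (by positivity) (by norm_num)]
    linarith
  have b2 : 1 ≤ 5 * e * ν := by
    have : 1 / (5 * e) ≤ ν := by linarith
    rwa [div_le_iff₀ (by positivity), mul_comm] at this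
  have rn : 2 * ν * r ≤ g := by linarith
  have a7 := mul_le_mul_of_nonneg_left b2 (zero_le_one.trans g1)
  have a8 := mul_le_mul_of_nonneg_left b2 (zero_le_one.trans r1)
  have a9 := mul_le_mul_of_nonneg_left rn he.le
  refine ⟨by linarith, ?_, by linarith, by linarith⟩
  rw [div_le_iff₀ (by positivity)]
  linarith

theorem pw_NumC (ν g r L G t θ : ℝ) (hθ : 0 < θ) (ν1 : 1 ≤ ν) (r1 : 1 ≤ r) (hL : 1 ≤ L)
    (ht : 0 < t) (rn : 2 * ν * r ≤ g) (h : G ≤ 2 * (ν * L)) :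
    t ≤ 192 * (2 * ν) * L * (t / 4) ∧ -(2 * θ * (g * L)) ≤ 2 * r * (G * -θ) := by
  have a1 := mul_le_mul_of_nonneg_left (one_le_mul_of_one_le_of_one_le ν1 hL) ht.le
  have a2 := mul_le_mul_of_nonneg_left h (zero_le_one.trans r1)
  have a3 := mul_le_mul_of_nonneg_right rn (zero_le_one.trans hL)
  have a4 : r * G ≤ g * L := by linarith
  have a5 := mul_le_mul_of_nonneg_left a4 hθ.le
  exact ⟨by linarith, by linarith⟩

theorem numC_pf (hB : SNumB) : SNumC := by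
  intro q η θ e c K K₁ hq hθ he he1 hη hc hce
  obtain ⟨A1, hA1, hZ⟩ := hB q θ hq hθ
  obtain ⟨B1, hB1, kB1⟩ : ∃ B : ℝ, 0 ≤ B ∧ 64 * max K₁ 1 / c ≤ Real.exp B :=
    ⟨_, abs_nonneg _, le_exp_NumC _⟩
  obtain ⟨B2, hB2, kB2⟩ : ∃ B : ℝ, 0 ≤ B ∧ 4 * max K 1 ≤ Real.exp B :=
    ⟨_, abs_nonneg _, le_exp_NumC _⟩
  have he5 : 0 < 1 / (5 * e) := by positivity
  obtain ⟨A, kA⟩ : ∃ A : ℝ, A = 5 + A1 + B1 + B2 + 1 / (5 * e) := ⟨_, rfl⟩
  refine ⟨A, fun ν g r m w P hw hI => ?_⟩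
  have q3 : (3 : ℝ) ≤ q := by exact_mod_cast hq
  have q0 : (0 : ℝ) < q := by linarith
  have hL : 1 ≤ Real.log q := by
    rw [Real.le_log_iff_exp_le q0]
    linarith [Real.exp_one_lt_d9]
  have ν1 : (1 : ℝ) ≤ ν := by exact_mod_cast P.hν
  have g1 : (1 : ℝ) ≤ g := by exact_mod_cast P.hν.trans P.νg
  have r1 : (1 : ℝ) ≤ r := by exact_mod_cast P.r1
  have j1 : e * g ≤ (⌈e * g⌉₊ : ℝ) := Nat.le_ceil _
  have j2 : (⌈e * g⌉₊ : ℝ) ≤ e * g + 1 := (Nat.ceil_lt_add_one (by positivity)).le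
  have j3 : ⌈e * g⌉₊ ≤ g + 1 :=
    (Nat.ceil_le.2 (mul_le_of_le_one_left (by positivity) he1)).trans (Nat.le_succ g)
  have kZ := hZ A ν g r m _ P j3
  have j4 : (2 : ℝ) ≤ (⌈e * g⌉₊ : ℝ) := by exact_mod_cast P.j2
  unfold Ineq at hI
  generalize ⌈e * g⌉₊ = j at *
  have rm : 2 * (2 * (ν : ℝ)) * r + m = 2 * g := by exact_mod_cast P.rm
  have m2 : (m : ℝ) ≤ 8 * ν * (q : ℝ) ^ ν := by exact_mod_cast P.m2
  have m0 : (0 : ℝ) ≤ m := Nat.cast_nonneg m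
  have big := P.big
  have hAν := P.hA
  have s1 : (1 : ℝ) ≤ (q : ℝ) ^ ν := one_le_pow₀ (by linarith)
  have X1 : (q : ℝ) ^ ν ≤ (ν : ℝ) ^ 2 * (q : ℝ) ^ ν :=
    le_mul_of_one_le_left (by positivity) (one_le_pow₀ ν1)
  generalize hX : (ν : ℝ) ^ 2 * (q : ℝ) ^ ν = X at *
  have hg : 2 * (g : ℝ) + 1 = ((q : ℝ) ^ ν) ^ 2 := by exact_mod_cast P.hg
  have T0 : 0 < (g : ℝ) ^ θ := Real.rpow_pos_of_pos (by linarith) _
  have t0 : 0 < (g : ℝ) ^ (-θ) := Real.rpow_pos_of_pos (by linarith) _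
  have tT : 2 / ((g : ℝ) ^ (-θ) / 4) = 8 * (g : ℝ) ^ θ := by
    rw [Real.rpow_neg (by linarith)]
    field_simp
    norm_num
  have hQ : (q : ℝ) ^ (2 * g + 1) ≤ (3 * (g : ℝ)) ^ (2 * r) * (q : ℝ) ^ (m + 1) := by
    have e1 : 2 * g + 1 = ν * 2 * (2 * r) + (m + 1) := by have := P.rm; linarith
    rw [e1, pow_add, pow_mul _ (ν * 2), pow_mul _ ν 2, ← hg]
    gcongr
    linarith
  have rn : 2 * (ν : ℝ) * r ≤ g := by linarith
  have low := low_NumC ((q : ℝ) ^ (2 * g + 1)) ((q : ℝ) ^ (m + 1)) w j (c / (g * j)) (2 * ν)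
    (Real.log q) ((g : ℝ) ^ (-θ) / 4) g r m (by positivity) (by positivity) (by linarith)
    (by positivity) (by positivity) (by linarith) (by positivity) (by linarith) (by linarith) hQ
    (by
      rw [le_div_iff₀ (by positivity)]
      have b1 : 4000 * Real.log q * c * (2 * ν * r) ≤ j :=
        le_trans (mul_le_mul hce rn (by positivity) he.le) j1
      have b2 : 0 ≤ Real.log q * c * (2 * ν * r) := by positivity
      have b3 : 3456 * (Real.log q * c * (2 * ν * r)) / j ≤ 1 :=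
        (div_le_one (by linarith)).2 (by linarith)
      calc _ = (g : ℝ) ^ (-θ) / 4 * (3456 * (Real.log q * c * (2 * ν * r)) / j) := by
            field_simp
            ring
        _ ≤ (g : ℝ) ^ (-θ) / 4 * 1 := by gcongr
        _ = _ := mul_one _)
  rw [tT] at low
  push_cast at hI
  obtain ⟨n1, n2, n3, n4⟩ := ar_NumC ν g r m _ X A A1 B1 B2 e hA1 hB1 hB2 he kA ν1 g1 r1 rm m0 m2
    s1 X1 big hAν
  obtain ⟨n5, n6⟩ := pw_NumC ν g r (Real.log q) (Real.log g) _ θ hθ ν1 r1 hL t0 rn (by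
    have : Real.log g ≤ Real.log (((q : ℝ) ^ ν) ^ 2) :=
      Real.log_le_log (by linarith) (by linarith)
    rwa [Real.log_pow, Real.log_pow, Nat.cast_ofNat] at this)
  have hY : 0 < (q : ℝ) ^ (m + 1) * (j : ℝ) ^ 2 * (8 * (g : ℝ) ^ θ) ^ (2 * m + 4) := by positivity
  have kY : (q : ℝ) ^ (m + 1) * (j : ℝ) ^ 2 * (8 * (g : ℝ) ^ θ) ^ (2 * m + 4) * 4 ^ m * (g * j) ≤
      Real.exp (A1 * X) := le_of_eq_of_le (by ring) kZ
  have c2 := two_NumC w (64 * (2 * ν) * Real.log q * ((g : ℝ) ^ (-θ) / 4)) _ (4 ^ m)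
    (Real.exp (3 * g / (64 * (2 * ν)))) K₁ (max K₁ 1) c (g * j) r
    (lt_of_lt_of_le (by positivity) hw) (by positivity) hY (by positivity) (Real.exp_pos _)
    (le_max_left _ _) hc (by positivity) (by
      have b3 : Real.exp 2 ≤ 9 := by
        have : Real.exp 1 ≤ 3 := Real.exp_one_lt_d9.le.trans (by norm_num)
        rw [show (2 : ℝ) = 1 + 1 by norm_num, Real.exp_add]
        exact (mul_le_mul this this (Real.exp_pos 1).le (by norm_num)).trans (by norm_num)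
      calc _ ≤ Real.exp B1 * Real.exp (3 * g / (64 * (2 * ν))) * Real.exp (A1 * X) := by gcongr
        _ < Real.exp (r * 2) := by
            rw [← Real.exp_add, ← Real.exp_add]
            exact Real.exp_lt_exp.2 n1
        _ ≤ 9 ^ r := by
            rw [Real.exp_nat_mul]
            exact pow_le_pow_left₀ (Real.exp_pos _).le b3 r)
  have c1 := one_NumC w ((192 * (2 * ν) * Real.log q * ((g : ℝ) ^ (-θ) / 4)) ^ (2 * r))
    (Real.exp (-(2 * θ * (g * Real.log q)))) ((q : ℝ) ^ (-(η * g))) _ (4 ^ m)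
    (Real.exp (3 * g / (64 * (2 * ν)))) K (max K 1) (g * j) j hw (Real.exp_pos _) (by
      refine le_trans ?_ (pow_le_pow_left₀ t0.le n5 _)
      rw [Real.rpow_def_of_pos (by linarith), ← Real.exp_nat_mul, Nat.cast_mul, Nat.cast_ofNat]
      exact Real.exp_le_exp.2 n6)
    (Real.rpow_pos_of_pos q0 _) hY (by positivity) (Real.exp_pos _) (le_max_left _ _)
    (lt_of_lt_of_le one_pos (le_max_right _ _)) (one_le_mul_of_one_le_of_one_le g1 (by linarith)) (by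
      have b0 : (64 : ℝ) ≤ Real.exp 5 := by
        have := Real.exp_one_gt_d9
        calc (64 : ℝ) ≤ 2.7 ^ 5 := by norm_num
          _ ≤ Real.exp 1 ^ 5 := pow_le_pow_left₀ (by norm_num) (by linarith) 5
          _ = _ := by rw [← Real.exp_nat_mul]; norm_num
      have b1 : (64 : ℝ) ^ j ≤ Real.exp (j * 5) := by
        rw [Real.exp_nat_mul]
        exact pow_le_pow_left₀ (by norm_num) b0 j
      have b5 : 10 * (e * g) ≤ (η - 2 * θ) * (g * Real.log q) := by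
        have : (g : ℝ) ≤ g * Real.log q := le_mul_of_one_le_right (by linarith) hL
        calc 10 * (e * g) = 10 * e * g := by ring
          _ ≤ _ := mul_le_mul hη this (by linarith) (by linarith)
      have b7 : 0 < e * g := by positivity
      rw [Real.rpow_def_of_pos q0]
      calc _ ≤ Real.exp B2 * Real.exp (j * 5) * Real.exp (3 * g / (64 * (2 * ν))) *
            Real.exp (A1 * X) * Real.exp (Real.log q * -(η * g)) := by gcongr
        _ < _ := by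
            rw [← Real.exp_add, ← Real.exp_add, ← Real.exp_add, ← Real.exp_add]
            exact Real.exp_lt_exp.2 (by linarith))
  rw [show 3 * (64 * (2 * (ν : ℝ)) * Real.log q * ((g : ℝ) ^ (-θ) / 4)) =
    192 * (2 * ν) * Real.log q * ((g : ℝ) ^ (-θ) / 4) by ring] at c2
  linarith

end Pool.Agent.MP_dd7250_nt.NR
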