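import Pool.Agent.MP_dd7250_nt.NR.Sa

set_option autoImplicit false

namespace Pool.Agent.MP_dd7250_nt.NR

open Finset Filter Pool.Agent.MP_dd7250_nt.LS
open scoped ComplexOrder

theorem inv_mem_Pair (w : ℂ) (hw : w ≠ 0) (M : Multiset ℂ) (n : ℕ) (hn : M.card = 2 * n + 1)
    (h : (1 - Polynomial.C w * Polynomial.X)
        * (M.map fun u => 1 - Polynomial.C u * Polynomial.X).prod
      = (Polynomial.X - Polynomial.C w) * (M.map fun u => Polynomial.X - Polynomial.C u).prod) :
    w⁻¹ ∈ M := by
  have eA : Polynomial.eval w (M.map fun u => 1 - Polynomial.C u * Polynomial.X).prod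
      = (M.map fun u => 1 - u * w).prod := by
    rw [Polynomial.eval_multiset_prod, Multiset.map_map]
    congr 1
    exact Multiset.map_congr rfl fun u _ => by simp
  have hA : (M.map fun u => 1 - u * w).prod = 0 := by
    by_cases h2 : w * w = 1
    · have e1 : (1 - Polynomial.C w * Polynomial.X : Polynomial ℂ)
          = (Polynomial.X - Polynomial.C w) * (-Polynomial.C w) := by
        have e2 : (Polynomial.C w * Polynomial.C w : Polynomial ℂ) = 1 := by
          rw [← map_mul, h2, map_one]
        linear_combination -e2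
      rw [e1, mul_assoc] at h
      have h3 := congrArg (Polynomial.eval w) (mul_left_cancel₀ (Polynomial.X_sub_C_ne_zero w) h)
      have eB : Polynomial.eval w (M.map fun u => Polynomial.X - Polynomial.C u).prod
          = w * (M.map fun u => 1 - u * w).prod := by
        rw [Polynomial.eval_multiset_prod, Multiset.map_map]
        have e3 : M.map (Polynomial.eval w ∘ fun u => Polynomial.X - Polynomial.C u)
            = M.map fun u => w * (1 - u * w) :=
          Multiset.map_congr rfl fun u _ => by
            simp only [Function.comp, Polynomial.eval_sub, Polynomial.eval_X, Polynomial.eval_C]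
            linear_combination u * h2
        rw [e3, Multiset.prod_map_mul, Multiset.map_const', Multiset.prod_replicate, hn, pow_succ,
          pow_mul, sq, h2, one_pow, one_mul]
      rw [Polynomial.eval_mul, eA, eB, Polynomial.eval_neg, Polynomial.eval_C] at h3
      have h4 : (2 * w) * (M.map fun u => 1 - u * w).prod = 0 := by linear_combination -h3
      exact (mul_eq_zero.1 h4).resolve_left (mul_ne_zero two_ne_zero hw)
    · have h3 := congrArg (Polynomial.eval w) h
      rw [Polynomial.eval_mul, Polynomial.eval_mul, eA] at h3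
      simp only [Polynomial.eval_sub, Polynomial.eval_one, Polynomial.eval_mul, Polynomial.eval_C,
        Polynomial.eval_X, sub_self, zero_mul] at h3
      exact (mul_eq_zero.1 h3).resolve_left fun h4 => h2 (sub_eq_zero.1 h4).symm
  obtain ⟨u, hu, h1⟩ := Multiset.mem_map.1 (Multiset.prod_eq_zero_iff.1 hA)
  have h2 : u = w⁻¹ := eq_inv_of_mul_eq_one_left (sub_eq_zero.1 h1).symm
  exact h2 ▸ hu

theorem ind_Pair (hP : SPos) (a : ℝ) : ∀ (g : ℕ) (M : Multiset ℂ), M.card = 2 * g →
    (∀ u ∈ M, ‖u‖ = 1) →
    (M.map fun u => 1 - Polynomial.C u * Polynomial.X).prod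
      = (M.map fun u => Polynomial.X - Polynomial.C u).prod →
    Pos fun z => Complex.exp (g * (a * z))
      * (M.map fun u => 1 - Complex.exp (-(a * z)) * u).prod := by
  intro g
  induction g with
  | zero =>
    intro M hM _ _
    rw [Multiset.card_eq_zero.1 hM]
    simpa using hP.2.1 1 zero_le_one
  | succ g ih =>
    intro M hM h1 h2
    obtain ⟨w, hw⟩ := Multiset.card_pos_iff_exists_mem.1 (show 0 < M.card by omega)
    obtain ⟨M₁, rfl⟩ := Multiset.exists_cons_of_mem hw
    have hw1 := h1 w hw
    have hw0 : w ≠ 0 := norm_pos_iff.1 (by rw [hw1]; exact one_pos)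
    rw [Multiset.card_cons] at hM
    rw [Multiset.map_cons, Multiset.map_cons, Multiset.prod_cons, Multiset.prod_cons] at h2
    obtain ⟨M', rfl⟩ := Multiset.exists_cons_of_mem (inv_mem_Pair w hw0 M₁ g (by omega) h2)
    rw [Multiset.card_cons] at hM
    rw [Multiset.map_cons, Multiset.map_cons, Multiset.prod_cons, Multiset.prod_cons, ← mul_assoc,
      ← mul_assoc] at h2
    have e1 : (1 - Polynomial.C w * Polynomial.X) * (1 - Polynomial.C w⁻¹ * Polynomial.X)
        = (Polynomial.X - Polynomial.C w) * (Polynomial.X - Polynomial.C w⁻¹ : Polynomial ℂ) := by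
      have e2 : (Polynomial.C w * Polynomial.C w⁻¹ : Polynomial ℂ) = 1 := by
        rw [← map_mul, mul_inv_cancel₀ hw0, map_one]
      linear_combination (Polynomial.X ^ 2 - 1) * e2
    rw [e1] at h2
    have h3 := ih M' (by omega)
      (fun u hu => h1 u (Multiset.mem_cons_of_mem (Multiset.mem_cons_of_mem hu)))
      (mul_left_cancel₀ (mul_ne_zero (Polynomial.X_sub_C_ne_zero _)
        (Polynomial.X_sub_C_ne_zero _)) h2)
    have hb : 0 ≤ 2 - 2 * w.re := by
      have := Complex.re_le_norm w
      linarith
    have h4 := hP.1 _ _ (hP.2.2.2.1 a (2 - 2 * w.re) hb) h3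
    have e3 : w + w⁻¹ = ((2 * w.re : ℝ) : ℂ) := by
      rw [Complex.inv_eq_conj hw1, Complex.add_conj]
    have e4 : w * w⁻¹ = 1 := mul_inv_cancel₀ hw0
    refine (congrArg Pos (funext fun z => ?_)).mp h4
    have e5 : Complex.exp (a * z) * Complex.exp (-(a * z)) = 1 := by
      rw [← Complex.exp_add, add_neg_cancel, Complex.exp_zero]
    have e6 : Complex.exp (((g + 1 : ℕ) : ℂ) * (a * z))
        = Complex.exp (g * (a * z)) * Complex.exp (a * z) := by
      rw [← Complex.exp_add]
      congr 1
      push_cast
      ring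
    have e7 : Complex.exp (a * z) + Complex.exp (-(a * z)) - 2 + ((2 - 2 * w.re : ℝ) : ℂ)
        = Complex.exp (a * z) * ((1 - Complex.exp (-(a * z)) * w)
          * (1 - Complex.exp (-(a * z)) * w⁻¹)) := by
      rw [Complex.ofReal_sub, ← e3, Complex.ofReal_ofNat]
      linear_combination (w + w⁻¹ - Complex.exp (-(a * z))) * e5
        - Complex.exp (a * z) * Complex.exp (-(a * z)) ^ 2 * e4
    rw [Multiset.map_cons, Multiset.map_cons, Multiset.prod_cons, Multiset.prod_cons, e6, e7]
    ring

theorem pair_pf (hP : SPos) : SPair := by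
  intro g θ h a
  have h1 := ind_Pair hP a g (univ.val.map fun i => Complex.exp (θ i * Complex.I)) (by simp)
    (fun u hu => by
      obtain ⟨i, -, rfl⟩ := Multiset.mem_map.1 hu
      exact Complex.norm_exp_ofReal_mul_I _) (by
      refine Polynomial.eq_of_infinite_eval_eq _ _
        ((Set.finite_singleton (0 : ℂ)).infinite_compl.mono fun x hx => ?_)
      have hx0 : x ≠ 0 := hx
      have h2 := h x hx0
      unfold Lam at h2
      rw [Set.mem_ofPred_eq, Multiset.map_map, Multiset.map_map, ← Finset.prod_eq_multiset_prod,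
        ← Finset.prod_eq_multiset_prod, Polynomial.eval_prod, Polynomial.eval_prod]
      have e1 : x ^ (2 * g) = ∏ _i : Fin (2 * g), x := by simp
      rw [e1, ← prod_mul_distrib] at h2
      refine Eq.trans (prod_congr rfl fun i _ => ?_) (h2.trans (prod_congr rfl fun i _ => ?_))
      · simp only [Function.comp, Polynomial.eval_sub, Polynomial.eval_X, Polynomial.eval_C,
          Polynomial.eval_mul, Polynomial.eval_one]
        rw [mul_comm]
      · simp only [Function.comp, Polynomial.eval_sub, Polynomial.eval_X, Polynomial.eval_C]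
        field_simp)
  simp only [Multiset.map_map] at h1
  exact h1

end Pool.Agent.MP_dd7250_nt.NR
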