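import Pool.Agent.MP_dd7250_nt.NR.Sa

set_option autoImplicit false

namespace Pool.Agent.MP_dd7250_nt.NR

open Finset Filter Pool.Agent.MP_dd7250_nt.LS
open scoped ComplexOrder

theorem mul_Pos (f g : ℂ → ℂ) (hf : Pos f) (hg : Pos g) : Pos fun z => f z * g z := by
  refine ⟨hf.1.mul hg.1, fun k => ?_⟩
  rw [iteratedDeriv_fun_mul hf.1.contDiff.contDiffAt hg.1.contDiff.contDiffAt]
  exact sum_nonneg fun i _ => mul_nonneg (mul_nonneg (Nat.cast_nonneg _) (hf.2 _)) (hg.2 _)

theorem add_Pos (f g : ℂ → ℂ) (hf : Pos f) (hg : Pos g) : Pos fun z => f z + g z := by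
  refine ⟨hf.1.add hg.1, fun k => ?_⟩
  rw [iteratedDeriv_fun_add hf.1.contDiff.contDiffAt hg.1.contDiff.contDiffAt]
  exact add_nonneg (hf.2 _) (hg.2 _)

theorem const_Pos (a : ℂ) (ha : 0 ≤ a) : Pos fun _ => a := by
  refine ⟨differentiable_const a, fun k => ?_⟩
  rw [iteratedDeriv_const]
  split_ifs
  exacts [ha, le_rfl]

theorem pos_pf : SPos := by
  refine ⟨mul_Pos, const_Pos, fun a ha => ⟨by fun_prop, fun k => ?_⟩, fun a b hb => ?_,
    fun ι s f h => ?_⟩
  · rw [iteratedDeriv_fun_sub (by fun_prop) (by fun_prop), iteratedDeriv_cexp_const_mul,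
      iteratedDeriv_const]
    split_ifs with e
    · simp [e]
    · have : (0 : ℝ) ≤ a ^ k := by positivity
      simpa using Complex.zero_le_real.2 this
  · refine add_Pos _ _ ⟨by fun_prop, fun k => ?_⟩ (const_Pos _ (Complex.zero_le_real.2 hb))
    simp only [← neg_mul]
    rw [iteratedDeriv_fun_sub (by fun_prop) (by fun_prop),
      iteratedDeriv_fun_add (by fun_prop) (by fun_prop), iteratedDeriv_cexp_const_mul,
      iteratedDeriv_cexp_const_mul, iteratedDeriv_const]
    split_ifs with e
    · simp [e, one_add_one_eq_two]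
    · have : (0 : ℝ) ≤ a ^ k + (-a) ^ k := by
        rcases Nat.even_or_odd k with h | h
        · rw [h.neg_pow]
          linarith [h.pow_nonneg a]
        · rw [h.neg_pow]
          linarith
      simpa using Complex.zero_le_real.2 this
  · classical
    induction s using Finset.induction_on with
    | empty => exact ⟨const_Pos 1 zero_le_one, const_Pos 0 le_rfl⟩
    | insert i s hi ih =>
      have h1 := h i (mem_insert_self i s)
      have h2 := ih fun j hj => h j (mem_insert_of_mem hj)
      simp only [prod_insert hi, sum_insert hi]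
      exact ⟨mul_Pos _ _ h1 h2.1, add_Pos _ _ h1 h2.2⟩

end Pool.Agent.MP_dd7250_nt.NR
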