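import Pool.Agent.MP_dd7250_nt.NR.Sa

set_option autoImplicit false

namespace Pool.Agent.MP_dd7250_nt.NR

open Finset Filter Pool.Agent.MP_dd7250_nt.LS
open scoped ComplexOrder

theorem norm_one_Root {T : ℕ} (hT : 0 < T) {z : ℂ} (hz : z ^ T = 1) : ‖z‖ = 1 := by
  have h : ‖z‖ ^ T = 1 := by rw [← norm_pow, hz, norm_one]
  exact (pow_eq_one_iff_of_nonneg (norm_nonneg z) hT.ne').1 h

theorem count_Root {N T r m s : ℕ} (hT : 0 < T) (ω : Fin N → ℂ) (hω : ∀ i, ω i ^ T = 1)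
    (hP : ∀ j, 1 ≤ j → j < T → ‖∑ i, ω i ^ j‖ ≤ s) (hN : T * r + m = N) (hm : T * s ≤ m)
    {ζ : ℂ} (hζ : ζ ^ T = 1) : r ≤ (univ.filter fun i => ω i = ζ).card := by
  have n1 : ‖ζ‖ = 1 := norm_one_Root hT hζ
  have z0 : ζ ≠ 0 := by
    intro h
    rw [h, norm_zero] at n1
    exact zero_ne_one n1
  have h1 : ∀ i, ∑ j ∈ range T, (ω i / ζ) ^ j = if ω i = ζ then (T : ℂ) else 0 := by
    intro i
    split_ifs with h
    · rw [h, div_self z0]
      simp
    · have h2 : ω i / ζ ≠ 1 := fun e => h ((div_eq_one_iff_eq z0).1 e)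
      rw [geom_sum_eq h2, div_pow, hω, hζ]
      simp
  have h2 : ((T : ℂ) * (univ.filter fun i => ω i = ζ).card)
      = ∑ j ∈ range T, (∑ i, ω i ^ j) / ζ ^ j := by
    calc ((T : ℂ) * (univ.filter fun i => ω i = ζ).card)
        = ∑ i, if ω i = ζ then (T : ℂ) else 0 := by
          rw [← sum_filter, sum_const, nsmul_eq_mul, mul_comm]
      _ = ∑ i, ∑ j ∈ range T, (ω i / ζ) ^ j := by simp only [h1]
      _ = ∑ j ∈ range T, (∑ i, ω i ^ j) / ζ ^ j := by
          rw [sum_comm]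
          simp only [div_pow, sum_div]
  obtain ⟨t, rfl⟩ : ∃ t, T = t + 1 := ⟨T - 1, by omega⟩
  rw [sum_range_succ'] at h2
  have h3 : ‖∑ j ∈ range t, (∑ i, ω i ^ (j + 1)) / ζ ^ (j + 1)‖ ≤ t * s := by
    refine (norm_sum_le _ _).trans ?_
    have h4 : ∀ j ∈ range t, ‖(∑ i, ω i ^ (j + 1)) / ζ ^ (j + 1)‖ ≤ (s : ℝ) := by
      intro j hj
      rw [norm_div, norm_pow, n1, one_pow, div_one]
      exact hP _ (by omega) (by have := mem_range.1 hj; omega)
    refine (sum_le_sum h4).trans ?_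
    simp
  have h5 : (N : ℂ) - ((t + 1 : ℕ) : ℂ) * (univ.filter fun i => ω i = ζ).card
      = -∑ j ∈ range t, (∑ i, ω i ^ (j + 1)) / ζ ^ (j + 1) := by
    rw [h2]
    simp
  have h6 : (N : ℝ) - ((t + 1 : ℕ) : ℝ) * (univ.filter fun i => ω i = ζ).card ≤ t * s := by
    have h7 : ‖(((N : ℝ) - ((t + 1 : ℕ) : ℝ) * (univ.filter fun i => ω i = ζ).card : ℝ) : ℂ)‖
        ≤ t * s := by
      push_cast at h5 ⊢
      rw [h5, norm_neg]
      exact h3
    rw [Complex.norm_real, Real.norm_eq_abs] at h7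
    exact (le_abs_self _).trans h7
  have h8 : N ≤ t * s + (t + 1) * (univ.filter fun i => ω i = ζ).card := by
    have h9 : (N : ℝ) ≤ t * s + ((t + 1 : ℕ) : ℝ) * (univ.filter fun i => ω i = ζ).card := by
      linarith
    exact_mod_cast h9
  have h10 : (t + 1) * r ≤ (t + 1) * (univ.filter fun i => ω i = ζ).card := by
    have : (t + 1) * s = t * s + s := by ring
    omega
  exact Nat.le_of_mul_le_mul_left h10 hT

theorem split_Root {N T r m : ℕ} (hT : 0 < T) (ω : Fin N → ℂ) (hω : ∀ i, ω i ^ T = 1)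
    (hc : ∀ ζ : ℂ, ζ ^ T = 1 → r ≤ (univ.filter fun i => ω i = ζ).card) (hN : T * r + m = N)
    (x : ℂ) : ∃ (S : Finset ℂ) (d : ℂ → ℕ), (∀ ζ ∈ S, ‖ζ‖ = 1) ∧ ∑ ζ ∈ S, d ζ = m ∧
      ∏ i, (1 - x * ω i) = (1 - x ^ T) ^ r * ∏ ζ ∈ S, (1 - x * ζ) ^ d ζ := by
  have hμ := Complex.isPrimitiveRoot_exp T hT.ne'
  set S := Polynomial.nthRootsFinset T (1 : ℂ) with hS
  have hmem : ∀ ζ : ℂ, ζ ∈ S ↔ ζ ^ T = 1 := fun ζ => Polynomial.mem_nthRootsFinset hT 1
  have hcard : S.card = T := hμ.card_nthRootsFinset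
  have hmaps : ∀ i ∈ (univ : Finset (Fin N)), ω i ∈ S := fun i _ => (hmem _).2 (hω i)
  refine ⟨S, fun ζ => (univ.filter fun i => ω i = ζ).card - r,
    fun ζ h => norm_one_Root hT ((hmem ζ).1 h), ?_, ?_⟩
  · have h1 : (univ : Finset (Fin N)).card = ∑ ζ ∈ S, (univ.filter fun i => ω i = ζ).card :=
      card_eq_sum_card_fiberwise hmaps
    have h2 : ∑ ζ ∈ S, (univ.filter fun i => ω i = ζ).card
        = ∑ ζ ∈ S, (r + ((univ.filter fun i => ω i = ζ).card - r)) :=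
      sum_congr rfl fun ζ h => by have := hc ζ ((hmem ζ).1 h); omega
    rw [h2, sum_add_distrib, sum_const, hcard, smul_eq_mul, card_univ, Fintype.card_fin] at h1
    exact Nat.add_left_cancel (h1.symm.trans hN.symm)
  · have h3 : 1 - x ^ T = ∏ ζ ∈ S, (1 - x * ζ) := by
      have h4 := hμ.pow_sub_pow_eq_prod_sub_mul 1 x hT
      rw [one_pow] at h4
      rw [h4]
      exact prod_congr rfl fun ζ _ => by rw [mul_comm]
    rw [h3, ← prod_pow, ← prod_mul_distrib, ← prod_fiberwise_of_maps_to hmaps]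
    refine prod_congr rfl fun ζ h => ?_
    rw [← pow_add, Nat.add_sub_cancel' (hc ζ ((hmem ζ).1 h)), ← prod_const]
    exact prod_congr rfl fun i hi => by rw [(mem_filter.1 hi).2]

theorem root_pf : SRoot := by
  intro N n r m s θ hn hC hps hb hN hm x
  have hT : 0 < 2 * n := by omega
  have hcos : ∀ i, Real.cos (((2 * n : ℕ) : ℝ) * θ i) = 1 := by
    have h1 : ∑ i, Real.cos (((2 * n : ℕ) : ℝ) * θ i) = N := by
      unfold ps at hps
      exact_mod_cast hps
    have h2 : ∑ i : Fin N, (1 - Real.cos (((2 * n : ℕ) : ℝ) * θ i)) = 0 := by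
      rw [sum_sub_distrib, h1]
      simp
    intro i
    have h3 := (sum_eq_zero_iff_of_nonneg fun i _ =>
      sub_nonneg.2 (Real.cos_le_one _)).1 h2 i (mem_univ i)
    linarith
  have hω : ∀ i, Complex.exp (θ i * Complex.I) ^ (2 * n) = 1 := by
    intro i
    have h1 := hcos i
    have h2 : Real.sin (((2 * n : ℕ) : ℝ) * θ i) = 0 := by
      have h3 := Real.sin_sq_add_cos_sq (((2 * n : ℕ) : ℝ) * θ i)
      rw [h1] at h3
      exact pow_eq_zero_iff (two_ne_zero) |>.1 (by linarith)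
    have h4 : ((2 * n : ℕ) : ℂ) * (θ i * Complex.I)
        = ((((2 * n : ℕ) : ℝ) * θ i : ℝ) : ℂ) * Complex.I := by
      push_cast
      ring
    rw [← Complex.exp_nat_mul, h4, Complex.exp_mul_I, ← Complex.ofReal_cos, ← Complex.ofReal_sin,
      h1, h2]
    simp
  have hP : ∀ j, 1 ≤ j → j < 2 * n → ‖∑ i, Complex.exp (θ i * Complex.I) ^ j‖ ≤ s := by
    intro j h1 h2
    rw [← ps_ZL hC]
    by_cases h : j ≤ n
    · exact hb j h1 h
    · have h3 : ps θ j = ps θ (2 * n - j) := by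
        unfold ps
        congr 1
        refine sum_congr rfl fun i _ => ?_
        have h4 : ((2 * n - j : ℕ) : ℝ) * θ i = ((2 * n : ℕ) : ℝ) * θ i - j * θ i := by
          rw [Nat.cast_sub h2.le]
          ring
        have h5 : Real.sin (((2 * n : ℕ) : ℝ) * θ i) = 0 := by
          have h3 := Real.sin_sq_add_cos_sq (((2 * n : ℕ) : ℝ) * θ i)
          rw [hcos i] at h3
          exact pow_eq_zero_iff (two_ne_zero) |>.1 (by linarith)
        rw [h4, Real.cos_sub, hcos i, h5]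
        ring
      rw [h3]
      exact hb _ (by omega) (by omega)
  obtain ⟨S, d, hS, hd, he⟩ := split_Root hT _ hω
    (fun ζ hζ => count_Root hT _ hω hP hN hm hζ) hN x
  unfold Lam
  rw [he, norm_mul, norm_pow, norm_prod, ← hd, ← prod_pow_eq_pow_sum, ← prod_pow_eq_pow_sum]
  refine ⟨mul_le_mul_of_nonneg_left ?_ (by positivity), fun hx =>
    mul_le_mul_of_nonneg_left ?_ (by positivity)⟩
  · refine prod_le_prod (fun _ _ => norm_nonneg _) fun ζ h => ?_
    rw [norm_pow]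
    refine pow_le_pow_left₀ (norm_nonneg _) ?_ _
    refine (norm_sub_le _ _).trans ?_
    rw [norm_mul, hS ζ h, norm_one, mul_one]
  · refine prod_le_prod (fun _ _ => pow_nonneg (sub_nonneg.2 hx) _) fun ζ h => ?_
    rw [norm_pow]
    refine pow_le_pow_left₀ (sub_nonneg.2 hx) ?_ _
    have h1 := norm_sub_norm_le (1 : ℂ) (x * ζ)
    rwa [norm_mul, hS ζ h, norm_one, mul_one] at h1

end Pool.Agent.MP_dd7250_nt.NR
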