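import Mathlib
import Pool.Agent.Mg.Fdd7250p.G4187d7

/- The range of the numerator shifts: definitions and statements of the analytic steps. -/

set_option autoImplicit false

namespace Pool.Agent.MP_dd7250_nt.NR

open Finset Filter Pool.Agent.MP_dd7250_nt.LS
open scoped ComplexOrder

/-- Entire functions with nonnegative Taylor coefficients at the origin. -/
def Pos (f : ℂ → ℂ) : Prop := Differentiable ℂ f ∧ ∀ k, 0 ≤ iteratedDeriv k f 0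

/-- The points `j h, …, 2 j h`. -/
noncomputable def pt (j : ℕ) (h : ℝ) (l : ℕ) : ℝ := ((j : ℝ) + l) * h

/-- The finite difference of order `j` on the points `j h, …, 2 j h`. -/
noncomputable def Lm (j : ℕ) (h : ℝ) (f : ℂ → ℂ) : ℂ :=
  ∑ l ∈ range (j + 1), (-1) ^ l * (j.choose l : ℂ) * f (pt j h l)

/-- A rising product with step `h`. -/
noncomputable def PH (h : ℝ) (r : ℕ) (γ : ℂ) : ℂ := ∏ l ∈ range r, (γ + l * h)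

noncomputable def wj (j : ℕ) : ℝ := (j.factorial : ℝ) / (j.ascFactorial j : ℝ)

def SPos : Prop :=
  (∀ f g : ℂ → ℂ, Pos f → Pos g → Pos fun z => f z * g z) ∧
  (∀ a : ℂ, 0 ≤ a → Pos fun _ => a) ∧
  (∀ a : ℝ, 0 ≤ a → Pos fun z => Complex.exp (a * z) - 1) ∧
  (∀ a b : ℝ, 0 ≤ b → Pos fun z => Complex.exp (a * z) + Complex.exp (-(a * z)) - 2 + b) ∧
  ∀ (ι : Type) (s : Finset ι) (f : ι → ℂ → ℂ), (∀ i ∈ s, Pos (f i)) →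
    (Pos fun z => ∏ i ∈ s, f i z) ∧ Pos fun z => ∑ i ∈ s, f i z

def SAN : Prop :=
  ∀ (Ψ₀ Ψ₁ P : ℂ → ℂ) (ρ R ε B A : ℝ) (k : ℕ), Pos Ψ₀ → Pos Ψ₁ → 0 < ρ → ρ ≤ R →
    DifferentiableOn ℂ P (Metric.ball 0 (2 * R)) →
    (∀ z : ℂ, ‖z‖ = ρ → ‖Ψ₀ z + Ψ₁ z - P z‖ ≤ ε) → (∀ z : ℂ, ‖z‖ = R → ‖P z‖ ≤ B) →
    (∀ z : ℂ, ‖z‖ ≤ R → ‖Ψ₀ z‖ ≤ A * ‖z‖ ^ k) →
    ‖Ψ₀ ((ρ / 2 : ℝ) : ℂ)‖ ≤ 2 * ε + 2 * B * (ρ / 2 / R) ^ k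

def SPair : Prop :=
  ∀ (g : ℕ) (θ : Fin (2 * g) → ℝ), (∀ x : ℂ, x ≠ 0 → Lam θ x = x ^ (2 * g) * Lam θ x⁻¹) →
    ∀ a : ℝ, Pos fun z => Complex.exp (g * (a * z)) * Lam θ (Complex.exp (-(a * z)))

def SRoot : Prop :=
  ∀ (N n r m s : ℕ) (θ : Fin N → ℝ), 1 ≤ n → Cj θ → ps θ (2 * n) = N →
    (∀ j, 1 ≤ j → j ≤ n → ‖ps θ j‖ ≤ s) → 2 * n * r + m = N → 2 * n * s ≤ m → ∀ x : ℂ,
      ‖Lam θ x‖ ≤ ‖1 - x ^ (2 * n)‖ ^ r * (1 + ‖x‖) ^ m ∧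
      (‖x‖ ≤ 1 → ‖1 - x ^ (2 * n)‖ ^ r * (1 - ‖x‖) ^ m ≤ ‖Lam θ x‖)

def SFD1 : Prop :=
  ∀ (j r : ℕ) (h : ℝ) (s : ℂ), (∀ l < r + j, (j * h + s + l * h : ℂ) ≠ 0) →
    Lm j h (fun γ => (PH h r (γ + s))⁻¹) = r.ascFactorial j * (h : ℂ) ^ j / PH h (r + j) (j * h + s)

def SFD2 : Prop :=
  ∀ (j : ℕ) (h B : ℝ) (f : ℂ → ℂ), 2 ≤ j → 0 < h → DifferentiableOn ℂ f {z | 0 < z.re} →
    (∀ z : ℂ, h ≤ z.re → ‖f z‖ ≤ B) → ‖Lm j h f‖ ≤ 4 * wj j * B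

def SFD3 : Prop :=
  (∀ (j r : ℕ) (h : ℝ), 1 ≤ r → r ≤ j → 0 < h →
    wj j / j * (1 / (3 * r * h)) ^ r ≤ ‖Lm j h fun γ => (PH h r γ)⁻¹‖) ∧
  (∀ j : ℕ, 1 ≤ j → (1 / 4 : ℝ) ^ j ≤ wj j) ∧
  ∀ (j : ℕ) (h B : ℝ) (f : ℂ → ℂ), (∀ l ≤ j, ‖f (pt j h l)‖ ≤ B) → ‖Lm j h f‖ ≤ 2 ^ j * B

/-- The sizes of the parameters. -/
structure Par (q : ℕ) (θ A : ℝ) (ν g r m j : ℕ) : Prop where
  hν : 1 ≤ ν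
  hA : A ≤ ν
  hg : 2 * g + 1 = (q ^ ν) ^ 2
  νg : ν ≤ g
  r1 : 1 ≤ r
  rj : r ≤ j
  j2 : 2 ≤ j
  rm : 2 * (2 * ν) * r + m = 2 * g
  m1 : 2 * (2 * ν) * q ^ ν ≤ m
  m2 : m ≤ 8 * ν * q ^ ν
  big : A * (ν ^ 2 * q ^ ν) ≤ r
  rad : (g : ℝ) ^ (-θ) / 2 ≤ 1 / (64 * (2 * ν) * Real.log q)

def SNumA : Prop :=
  ∀ (q : ℕ) (θ e A : ℝ), 3 ≤ q → Odd q → 0 < θ → 0 < e → ∀ᶠ ν in atTop, ∃ g r m : ℕ,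
    Par q θ A ν g r m ⌈e * g⌉₊

def SNumB : Prop :=
  ∀ (q : ℕ) (θ : ℝ), 3 ≤ q → 0 < θ → ∃ A : ℝ, 0 ≤ A ∧ ∀ (A' : ℝ) (ν g r m j : ℕ),
    Par q θ A' ν g r m j → j ≤ g + 1 →
    (q : ℝ) ^ (m + 1) * j ^ 2 * 4 ^ m * (8 * (g : ℝ) ^ θ) ^ (2 * m + 4) * (g * j) ≤
      Real.exp (A * (ν ^ 2 * q ^ ν))

/-- The inequality that the conjectured formula would give. -/
def Ineq (q : ℕ) (η K K₁ w h t : ℝ) (n g r m j : ℕ) : Prop :=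
  ((q : ℝ) ^ (2 * g + 1))⁻¹ * (w / j * (1 / (3 * r * h)) ^ r / (2 * n * Real.log q) ^ r) ^ 2 *
      (t ^ 4 * ((n * Real.log q * t) ^ r * (t / 2) ^ m) ^ 2) ≤
    2 * (4 ^ j * 4 ^ m * Real.exp (3 * g / (64 * n)) * (K * (q : ℝ) ^ (-(η * g)))) +
      2 * (16 * w ^ 2 * 4 ^ m * Real.exp (3 * g / (64 * n)) * (K₁ / h)) *
        (64 * n * Real.log q * t) ^ (2 * r)

def SNumC : Prop :=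
  ∀ (q : ℕ) (η θ e c K K₁ : ℝ), 3 ≤ q → 0 < θ → 0 < e → e ≤ 1 → 10 * e ≤ η - 2 * θ → 0 < c →
    4000 * Real.log q * c ≤ e → ∃ A : ℝ, ∀ (ν g r m : ℕ) (w : ℝ), Par q θ A ν g r m ⌈e * g⌉₊ →
      (1 / 4 : ℝ) ^ ⌈e * g⌉₊ ≤ w →
      ¬ Ineq q η K K₁ w (c / (g * ⌈e * g⌉₊)) ((g : ℝ) ^ (-θ) / 4) (2 * ν) g r m ⌈e * g⌉₊

end Pool.Agent.MP_dd7250_nt.NR
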