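import Mathlib
import Pool.Agent.Mg.Fdd7250p.G19b6c2
import Pool.Agent.MP_dd7250_nt.NR.Sa

/- The range of the numerator shifts: statements of the arithmetic steps. -/

set_option autoImplicit false

namespace Pool.Agent.MP_dd7250_nt.NR

open Polynomial Finset Pool.Agent.MP_dd7250_nt Pool.Agent.MP_dd7250_nt.LS
  Pool.Agent.MP_dd7250_nt.SH

variable (F : Type) [Field F] [Fintype F]

/-- The multiplier that makes the Taylor coefficients nonnegative. -/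
noncomputable def UU (g : ℕ) (z : ℂ) : ℂ := -(xv F z)⁻¹ ^ (11 + 3 * g)

/-- The prediction on the line `β = 2 α`, without its poles. -/
noncomputable def PN (g : ℕ) (z γ δ : ℂ) : ℂ := UU F g z * NW F g z (2 * z) γ δ

def SFE : Prop :=
  ∀ (g : ℕ) (D : F[X]), D ∈ sqF F (2 * g + 1) → ∀ x : ℂ, x ≠ 0 →
    LD F g D x = x ^ (2 * g) * LD F g D x⁻¹

def SD0 : Prop :=
  ∀ ν g : ℕ, 1 ≤ ν → 2 * g + 1 = (Q F ^ ν) ^ 2 →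
    (X ^ (2 * g + 1) - X : F[X]) ∈ sqF F (2 * g + 1) ∧
      pp (jac (X ^ (2 * g + 1) - X : F[X])) (2 * (2 * ν)) = ((2 * g : ℕ) : ℂ)

def STr : Prop :=
  ∀ (D : F[X]) (ν j : ℕ), 1 ≤ j → j ≤ 2 * ν → ‖pp (jac D) j‖ ≤ ((Q F ^ ν : ℕ) : ℝ)

def SNW1 : Prop :=
  ∃ K : ℝ, 0 ≤ K ∧ ∀ (g : ℕ) (R : ℝ) (z : ℂ), ‖z‖ ≤ R → lq F * R ≤ 1 / 64 →
    ‖UU F g z * WW F z (2 * z)‖ ≤ Real.exp (3 * g * (lq F * R)) * K ∧
    ∀ (h : ℝ) (γ δ : ℂ), 0 < h → h ≤ 1 → h ≤ γ.re → h ≤ δ.re →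
      ‖PN F g z γ δ‖ ≤ Real.exp (3 * g * (lq F * R)) * (K / h)

def SNW2 : Prop :=
  ∀ g : ℕ,
    (∀ γ δ : ℂ, 0 < γ.re → 0 < δ.re →
      DifferentiableOn ℂ (fun z => PN F g z γ δ) (Metric.ball 0 (1 / 64))) ∧
    (∀ z δ : ℂ, ‖z‖ ≤ 1 / 64 → 0 < δ.re →
      DifferentiableOn ℂ (fun γ => PN F g z γ δ) {γ | 0 < γ.re}) ∧
    (∀ z γ : ℂ, ‖z‖ ≤ 1 / 64 → 0 < γ.re →
      DifferentiableOn ℂ (fun δ => PN F g z γ δ) {δ | 0 < δ.re}) ∧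
    ∀ z : ℂ, UU F g z * WW F z (2 * z) =
      (Complex.exp ((1 * lq F : ℝ) * z) - 1) * (Complex.exp ((2 * lq F : ℝ) * z) - 1) *
        (Complex.exp ((3 * lq F : ℝ) * z) - 1) * (Complex.exp ((4 * lq F : ℝ) * z) - 1) *
        (Complex.exp (g * ((lq F : ℝ) * z)) * Complex.exp (g * ((2 * lq F : ℝ) * z)))

end Pool.Agent.MP_dd7250_nt.NR
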